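import Pool.Agent.D0H10.Q4.Bet3
import Pool.Agent.D0H43.Q4.Stm1

/-!
# Project Q4, module D1.7: the values modulo the maximal ideal
-/

set_option autoImplicit false
set_option linter.unusedSectionVars false

open Filter Complex
open scoped Topology PeriodPair
open Pool.Agent.TH936.CM

namespace Pool.Agent.D0H2.Q4

open H385 (ZI RQ im1 nrm)
open Pool.Agent.H304R3.HK (tc HC LH)
open Pool.Agent.Y699
open Pool.Agent.W164.RC (tc_mul unit_cases two2 prim_iff_dvd)
open Pool.Agent.H304R2.EC.A1 (prim prim_mul prim_one prim_norm_odd prim_ne_zero)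
open Pool.Agent.D0H10.Q4 Pool.Agent.D0H43.Q4

section val

variable {Γ : Type*} [LinearOrderedCommGroupWithZero Γ] {v : Valuation ℂ Γ} (h2 : v 2 < 1)
include h2

/-- primary elements -/
lemma tc_prim {w : ZI} (hw : prim w) : ∃ z : ZI, tc w = 1 + 2 * tc z ∧ v (tc w) = 1 := by
  obtain ⟨c, hc⟩ := (prim_iff_dvd w).1 hw
  refine ⟨pi1 * c, ?_, ?_⟩
  · have h1 := congrArg tc hc
    have e : two2 = pi1 * 2 := by decide
    have e2 : tc (2 : ZI) = 2 := by
      have := tc_int 2
      simpa using this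
    rw [tc_sub, tc_one, e, tc_mul, tc_mul, e2] at h1
    rw [tc_mul]
    linear_combination h1
  · have hn := prim_norm_odd hw
    have hpar : (w.re + w.im) % 2 = 1 := by
      obtain ⟨h1, h3⟩ := hw
      omega
    have h4 := (tc_par h2 w).2 hpar
    have h5 : v (tc w) ≤ 1 := h4.l
    refine le_antisymm h5 ?_
    by_contra hc
    push Not at hc
    have h6 : v (1 : ℂ) < 1 := by
      have e : (1 : ℂ) = tc w - (tc w - 1) := by ring
      rw [e]
      exact (v.map_sub _ _).trans_lt (max_lt hc h4.s)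
    rw [map_one] at h6
    exact lt_irrefl _ h6

/-- the Euler factor -/
lemma fac_cgi {w u : ZI} (hw : prim w) (hu : u.norm = 1) {c : ZMod 2} (hc : u ^ 2 = (sg c : ZI)) :
    Cg v ((1 - tc u / tc w) / (1 + I)) (uu c) := by
  obtain ⟨z, hz, hw1⟩ := tc_prim h2 hw
  have hw0 : tc w ≠ 0 := by
    intro h
    rw [h, map_zero] at hw1
    exact zero_ne_one hw1
  have hl : (1 + I : ℂ) ≠ 0 := one_I_ne
  have h3 := two_div h2
  have hz1 : v (tc z) ≤ 1 := tc_le h2 z
  have key : ∀ y : ℂ, v y ≤ 1 → v (2 / (1 + I) * (y / tc w)) < 1 := by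
    intro y hy
    rw [map_mul, map_div₀ v y, hw1, div_one]
    calc v (2 / (1 + I)) * v y ≤ v (2 / (1 + I)) * 1 := mul_le_mul_right hy _
      _ = v (2 / (1 + I)) := mul_one _
      _ < 1 := h3
  have hI : v I ≤ 1 := (v_I (v := v)).le
  have hI1 : v (I * (1 + tc z)) ≤ 1 := by
    rw [map_mul, v_I, one_mul]
    exact v.map_add_le (by rw [map_one]) hz1
  have hIz : v (I * tc z) ≤ 1 := by rw [map_mul, v_I, one_mul]; exact hz1
  rcases unit_cases hu with h | h | h | h
  · have h0 : c = 0 := by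
      rw [h] at hc
      revert hc c
      decide
    rw [h0, uu_zero]
    apply Cg.zero
    have e : (1 - tc u / tc w) / (1 + I) = 2 / (1 + I) * (tc z / tc w) := by
      rw [h, tc_one]
      field_simp
      rw [hz]; ring
    rw [e]
    exact key _ hz1
  · have h0 : c = 1 := by
      rw [h] at hc
      revert hc c
      decide
    rw [h0, uu_one]
    apply cg_of (by rw [map_one])
    have e : (1 - tc u / tc w) / (1 + I) - 1 = 2 / (1 + I) * (-(I * (1 + tc z)) / tc w) := by
      rw [h, tc_im1]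
      field_simp
      rw [hz]; ring
    rw [e]
    exact key _ (by rw [Valuation.map_neg]; exact hI1)
  · have h0 : c = 0 := by
      rw [h] at hc
      revert hc c
      decide
    rw [h0, uu_zero]
    apply Cg.zero
    have e : (1 - tc u / tc w) / (1 + I) = 2 / (1 + I) * ((1 + tc z) / tc w) := by
      rw [h, tc_pow, tc_im1, I_sq]
      field_simp
      rw [hz]; ring
    rw [e]
    exact key _ (v.map_add_le (by rw [map_one]) hz1)
  · have h0 : c = 1 := by
      rw [h] at hc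
      revert hc c
      decide
    rw [h0, uu_one]
    apply cg_of (by rw [map_one])
    have e : (1 - tc u / tc w) / (1 + I) - 1 = 2 / (1 + I) * (-(I * tc z) / tc w) := by
      rw [h, tc_pow, tc_im1]
      have e3 : (I : ℂ) ^ 3 = -I := by
        rw [pow_succ, I_sq]; ring
      rw [e3]
      field_simp
      rw [hz]; ring
    rw [e]
    exact key _ (by rw [Valuation.map_neg]; exact hIz)

end val

lemma wi_norm (σ : ℕ) (a : ZI) : (wi σ a).norm = 1 := by
  unfold D0H43.Q4.wi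
  induction σ * wq a with
  | zero => simp
  | succ j ih => rw [pow_succ, Zsqrtd.norm_mul, ih]; decide

lemma wi_sq {σ : ℕ} (hσ : σ % 2 = 1) {π : ZI} (h : PP π) :
    wi σ π ^ 2 = (sg (if π.norm % 8 = 5 then 1 else 0) : ZI) := by
  have hm := h.norm_mod
  have hc := nrm_cast π
  unfold D0H43.Q4.wi
  rw [← pow_mul, mul_comm, pow_mul]
  have e : (im1 : ZI) ^ 2 = -1 := by decide
  rw [e]
  by_cases h8 : π.norm % 8 = 5
  · rw [if_pos h8]
    have hw : (σ * wq π) % 2 = 1 := by
      have : wq π % 2 = 1 := by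
        unfold wq
        omega
      rw [Nat.mul_mod, hσ, this]
    rw [Odd.neg_one_pow (Nat.odd_iff.2 hw)]
    decide
  · rw [if_neg h8]
    have hw : (σ * wq π) % 2 = 0 := by
      have : wq π % 2 = 0 := by
        unfold wq
        omega
      rw [Nat.mul_mod, this, mul_zero, Nat.zero_mod]
    rw [Even.neg_one_pow (Nat.even_iff.2 hw)]
    decide

variable {ι : Type} [DecidableEq ι] {pr : ι → ZI}

/-- the square of the value -/
lemma ui_sq {σ : ℕ} (hσ : σ % 2 = 1) (hp : PF pr) {T : Finset ι} {e : ι → ℕ}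
    (he : ∀ i ∈ T, e i % 2 = 1) {k : ι} (hk : k ∉ T) :
    (wi σ (pr k) * c4 pr T e (pr k)) ^ 2 =
      ((sg (wt pr k + ∑ l ∈ T, Y699.em pr l k) : ℤ) : ZI) := by
  rw [mul_pow, wi_sq hσ (hp.pp k), sg_add, Int.cast_mul]
  congr 1
  unfold c4
  rw [← Finset.prod_pow, sg_sum, Int.cast_prod]
  refine Finset.prod_congr rfl fun i hi => ?_
  have hik : i ≠ k := fun h => hk (h ▸ hi)
  have hnd : ¬ pr i ∣ pr k := ndv hp hik
  unfold fe
  rw [if_neg hnd, ← pow_mul, mul_comm, pow_mul, q4_sq (hp.pp i), qr_sg hnd]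
  have e1 : (if qr (pr i) (pr k) = -1 then (1 : ZMod 2) else 0) = Y699.em pr i k := by
    rw [em_sy hp]
    rfl
  rw [e1, ← Int.cast_pow, sg_sq _ _ (he i hi)]

lemma ui_norm (σ : ℕ) (hp : PF pr) {T : Finset ι} {e : ι → ℕ} {k : ι} (hk : k ∉ T) :
    (wi σ (pr k) * c4 pr T e (pr k)).norm = 1 := by
  rw [Zsqrtd.norm_mul, wi_norm, c4_norm hp T e, one_mul]
  intro i hi
  have hik : i ≠ k := fun h => hk (h ▸ hi)
  exact ndv hp hik

/-- the Euler factor at `k` -/
lemma euler_cgi {Γ : Type*} [LinearOrderedCommGroupWithZero Γ] {v : Valuation ℂ Γ} (h2 : v 2 < 1)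
    {σ : ℕ} (hσ : σ % 2 = 1) (hp : PF pr) {T : Finset ι} {e : ι → ℕ} (he : ∀ i ∈ T, e i % 2 = 1)
    {k : ι} (hk : k ∉ T) :
    Cg v ((1 - tc (wi σ (pr k) * c4 pr T e (pr k)) / tc (pr k)) / (1 + I))
      (uu (wt pr k + ∑ l ∈ T, Y699.em pr l k)) :=
  fac_cgi h2 (hp.pp k).prm (ui_norm σ hp hk) (ui_sq hσ hp he hk)

/-! ### the recursion -/

variable {L : PeriodPair} {Ω s : ℂ}

lemma lvi_congr {σ : ℕ} {V : Finset ι} {e e' : ι → ℕ} (h : ∀ i ∈ V, e i = e' i) :
    lvi σ L Ω pr V e = lvi σ L Ω pr V e' := by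
  unfold lvi
  congr 2
  funext q
  rw [c4_congr h]

/-- the Euler factor -/
noncomputable def efi (σ : ℕ) (pr : ι → ZI) (T : Finset ι) (e : ι → ℕ) (k : ι) : ℂ :=
  1 - tc (wi σ (pr k) * c4 pr T e (pr k)) / tc (pr k)

lemma lvi_eT (hlim : S_LIM1) (heul : S_EUL1) {σ : ℕ} (hσ : σ % 2 = 1) (h : NL L Ω s) (hp : PF pr)
    (e : ι → ℕ) (T : Finset ι) : ∀ R : Finset ι, Disjoint T R →
      lvi σ L Ω pr (T ∪ R) (eT e T) = (∏ k ∈ R, efi σ pr T e k) * lvi σ L Ω pr T e := by
  intro R
  induction R using Finset.induction_on with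
  | empty =>
    intro _
    rw [Finset.union_empty, Finset.prod_empty, one_mul]
    exact lvi_congr fun i hi => by unfold eT; rw [if_pos hi]
  | insert k R hk ih =>
    intro hd
    rw [Finset.disjoint_insert_right] at hd
    obtain ⟨hkT, hd⟩ := hd
    have hV : (T ∪ insert k R).erase k = T ∪ R := by
      rw [Finset.union_insert, Finset.erase_insert]
      rw [Finset.mem_union]
      tauto
    have hkV : k ∈ T ∪ insert k R := Finset.mem_union_right _ (Finset.mem_insert_self _ _)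
    have h1 := hlim σ hσ L Ω s h ι pr hp (T ∪ R) (eT e T)
    have h2 := hlim σ hσ L Ω s h ι pr hp (T ∪ insert k R) (eT e T)
    have h3 := heul σ ι pr hp (T ∪ insert k R) (eT e T) k hkV (by unfold eT; rw [if_neg hkT])
      (lvi σ L Ω pr (T ∪ R) (eT e T)) (by rw [hV]; exact h1)
    rw [tendsto_nhds_unique h2 h3, ih hd, Finset.prod_insert hk, hV]
    have h4 : c4 pr (T ∪ R) (eT e T) (pr k) = c4 pr T e (pr k) := by
      apply c4_eT hp Finset.subset_union_left
      intro i hi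
      apply ndv hp
      rintro rfl
      rw [Finset.mem_union] at hi
      tauto
    rw [h4]
    unfold efi
    ring

lemma lvi_eT' (hlim : S_LIM1) (heul : S_EUL1) {σ : ℕ} (hσ : σ % 2 = 1) (h : NL L Ω s)
    (hp : PF pr) (e : ι → ℕ) {T V : Finset ι} (hTV : T ⊆ V) :
    lvi σ L Ω pr V (eT e T) = (∏ k ∈ V \ T, efi σ pr T e k) * lvi σ L Ω pr T e := by
  have := lvi_eT hlim heul hσ h hp e T (V \ T) Finset.disjoint_sdiff
  rwa [Finset.union_sdiff_of_subset hTV] at this

/-- the sum of the limits -/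
lemma lvi_sum (σ : ℕ) (hp : PF pr) (V : Finset ι) (e : ι → ℕ) :
    ∑ T ∈ V.powerset, lvi σ L Ω pr V (eT e T) = Ω * tc (wi σ (DD pr V)) / (8 * tc (DD pr V)) *
      ∑ᶠ q : RQ (DD pr V), (∏ j ∈ V, tc (fe (pr j) 0 (8 * q.out) + fe (pr j) (e j) (8 * q.out))) *
        GI σ L Ω (zq Ω (DD pr V) q.out) := by
  classical
  have := fin_DD hp V
  let _ := Fintype.ofFinite (RQ (DD pr V))
  unfold lvi
  rw [← Finset.mul_sum]
  congr 1
  rw [finsum_eq_sum_of_fintype]
  simp_rw [finsum_eq_sum_of_fintype]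
  rw [Finset.sum_comm]
  refine Finset.sum_congr rfl fun q _ => ?_
  rw [← Finset.sum_mul, ← tc_prod, ← c4_sum]
  congr 1
  rw [← tch_eq, map_sum]
  exact Finset.sum_congr rfl fun T _ => (tch_eq _).symm

lemma BB_per' (L : PeriodPair) {z w : ℂ} (h : z - w ∈ L.lattice) : BB L z = BB L w := by
  unfold BB
  rw [Y699.wp_per L h, Y699.wp'_per L h]

lemma GI_per (σ : ℕ) (L : PeriodPair) {z w : ℂ} (h : z - w ∈ L.lattice) :
    GI σ L Ω z = GI σ L Ω w := by
  unfold GI
  rw [BB_per' L (z := z + Ω / 8) (w := w + Ω / 8) (by rwa [add_sub_add_right_eq_sub]),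
    BB_per' L (z := z + Ω / 8 + (1 + I) * (Ω / 4)) (w := w + Ω / 8 + (1 + I) * (Ω / 4))
      (by rwa [add_sub_add_right_eq_sub, add_sub_add_right_eq_sub])]

lemma lvi_empty (σ : ℕ) (h : NL L Ω s) (e : ι → ℕ) :
    lvi σ L Ω pr ∅ e = Ω / 8 * GI σ L Ω 0 := by
  classical
  have h1 : DD pr ∅ = 1 := by unfold DD; rw [Finset.prod_empty]
  unfold lvi
  rw [h1]
  have h3 : Subsingleton (RQ (1 : ZI)) := by
    rw [Ideal.Quotient.subsingleton_iff, Ideal.span_singleton_one]
  have h5 : wi σ 1 = 1 := by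
    unfold D0H43.Q4.wi
    have : wq 1 = 0 := by
      unfold wq
      have h6 := nrm_cast 1
      rw [Zsqrtd.norm_one] at h6
      omega
    rw [this, mul_zero, pow_zero]
  rw [h5, tc_one]
  have h6 : ∀ q : RQ (1 : ZI), tc (c4 pr ∅ e (8 * q.out)) * GI σ L Ω (zq Ω 1 q.out) =
      GI σ L Ω 0 := by
    intro q
    unfold c4
    rw [Finset.prod_empty, tc_one, one_mul]
    apply GI_per
    rw [sub_zero]
    refine (mem_lat h.gl.lat).2 ⟨q.out, ?_⟩
    unfold zq
    rw [tc_one, div_one]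
  let _ := Fintype.ofFinite (RQ (1 : ZI))
  rw [finsum_eq_sum_of_fintype, Finset.sum_congr rfl fun q _ => h6 q, Finset.sum_const]
  have h7 : (Finset.univ : Finset (RQ (1 : ZI))).card = 1 := by
    rw [Finset.card_univ]
    exact Fintype.card_eq_one_iff_nonempty_unique.2 ⟨⟨⟨0⟩, fun a => Subsingleton.elim _ _⟩⟩
  rw [h7, one_smul]
  ring

/-- the normalised value -/
noncomputable def bti (σ : ℕ) (L : PeriodPair) (Ω : ℂ) (pr : ι → ZI) (e : ι → ℕ) (V : Finset ι) :
    ℂ := lvi σ L Ω pr V e / ((1 + I) ^ V.card * lvi σ L Ω pr ∅ e)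

/-- the exact recursion -/
lemma bti_rec (hlim : S_LIM1) (heul : S_EUL1) {σ : ℕ} (hσ : σ % 2 = 1) (h : NL L Ω s)
    (hG : GI σ L Ω 0 ≠ 0) (hp : PF pr) (V : Finset ι) (e : ι → ℕ) :
    ∑ T ∈ V.powerset, bti σ L Ω pr e T * ∏ k ∈ V \ T, (efi σ pr T e k / (1 + I)) =
      tc (wi σ (DD pr V)) / tc (DD pr V) *
      ∑ᶠ q : RQ (DD pr V), (∏ j ∈ V, pf (pr j) (e j) (8 * q.out)) *
        gi σ L Ω (zq Ω (DD pr V) q.out) := by
  classical
  have := fin_DD hp V
  let _ := Fintype.ofFinite (RQ (DD pr V))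
  have hΩ := h.gl.lat.ne
  have hl : (1 + I : ℂ) ≠ 0 := one_I_ne
  have hD := tc_ne (DD_ne hp V)
  have h0 : lvi σ L Ω pr ∅ e ≠ 0 := by
    rw [lvi_empty σ h]
    exact mul_ne_zero (div_ne_zero hΩ (by norm_num)) hG
  have h1 : ∀ T ∈ V.powerset, bti σ L Ω pr e T * ∏ k ∈ V \ T, (efi σ pr T e k / (1 + I)) =
      lvi σ L Ω pr V (eT e T) / ((1 + I) ^ V.card * lvi σ L Ω pr ∅ e) := by
    intro T hT
    rw [Finset.mem_powerset] at hT
    rw [lvi_eT' hlim heul hσ h hp e hT, Finset.prod_div_distrib, Finset.prod_const]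
    unfold bti
    have hc : V.card = (V \ T).card + T.card := by
      rw [Finset.card_sdiff_add_card_eq_card hT]
    rw [hc, pow_add]
    field_simp
  rw [Finset.sum_congr rfl h1, ← Finset.sum_div, lvi_sum σ hp V e, finsum_eq_sum_of_fintype,
    finsum_eq_sum_of_fintype, lvi_empty σ h, Finset.mul_sum, Finset.mul_sum, Finset.sum_div]
  refine Finset.sum_congr rfl fun q _ => ?_
  unfold pf gi
  rw [Finset.prod_div_distrib, Finset.prod_const]
  field_simp

lemma I_pow_odd {σ : ℕ} (hσ : σ % 2 = 1) : I ^ σ = I ∨ I ^ σ = -I := by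
  have h : σ % 4 = 1 ∨ σ % 4 = 3 := by omega
  have e : I ^ σ = I ^ (σ % 4) := by
    conv_lhs => rw [← Nat.div_add_mod σ 4]
    rw [pow_add, pow_mul, Complex.I_pow_four, one_pow, one_mul]
  rcases h with h | h
  · left
    rw [e, h, pow_one]
  · right
    rw [e, h, pow_succ, I_sq]
    ring

lemma GI_zero_ne (hgid : S_GID1) {σ : ℕ} (hσ : σ % 2 = 1) (h : NL L Ω s) : GI σ L Ω 0 ≠ 0 := by
  intro h0
  have h1 := (hgid σ hσ L Ω s h).1
  rw [h0] at h1
  have h3 := h.ss
  have h4 : s ≠ 0 := by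
    rintro rfl
    norm_num at h3
  have h5 : (1 : ℂ) - I ^ σ ≠ 0 := by
    intro h6
    have h7 := congrArg Complex.re h6
    rcases I_pow_odd hσ with h8 | h8 <;> rw [h8] at h7 <;> simp at h7
  have h6 : (8 : ℂ) * s * (1 - I ^ σ) ≠ 0 := mul_ne_zero (mul_ne_zero (by norm_num) h4) h5
  apply h6
  rw [← h1]
  norm_num

/-- **Module D1.7.** -/
theorem bet1 (hlim : S_LIM1) (heul : S_EUL1) (hgid : S_GID1) (hrhs : S_RHS1) (hcomb : S_COMB) :
    S_BET1 := by
  intro σ hσ L Ω s h Γ _ v h2 ι _ pr hp V e he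
  have hG := GI_zero_ne hgid hσ h
  -- odd exponents everywhere
  set e' : ι → ℕ := fun i => if i ∈ V then e i else 1 with he'
  have hodd : ∀ i, e' i % 2 = 1 := by
    intro i
    rw [he']
    simp only
    split_ifs with hi
    · exact he i hi
    · norm_num
  have hV : lvi σ L Ω pr V e = lvi σ L Ω pr V e' := lvi_congr fun i hi => by
    rw [he']; simp only; rw [if_pos hi]
  have he0 : lvi σ L Ω pr ∅ e = lvi σ L Ω pr ∅ e' :=
    lvi_congr fun i hi => absurd hi (Finset.notMem_empty _)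
  rw [hV, he0]
  have hdet : bs (wt pr) (Y699.em pr) V = dq pr V := by
    unfold dq
    exact hcomb ι (wt pr) (Y699.em pr) (em_sy hp) _ (bs_rec _ _) V
  rw [← hdet]
  have key : ∀ V : Finset ι, Cg v (bti σ L Ω pr e' V) (uu (bs (wt pr) (Y699.em pr) V)) := by
    intro V
    induction V using Finset.strongInduction with
    | H V ih =>
      have h5 := bti_rec hlim heul hσ h hG hp V e'
      rw [powerset_ss, Finset.sdiff_self, Finset.prod_empty, mul_one] at h5
      have h6 : Cg v (∑ T ∈ V.ssubsets, bti σ L Ω pr e' T *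
            ∏ k ∈ V \ T, (efi σ pr T e' k / (1 + I)))
          (uu (∑ T ∈ V.ssubsets, bs (wt pr) (Y699.em pr) T *
            ∏ k ∈ V \ T, (wt pr k + ∑ l ∈ T, Y699.em pr l k))) := by
        refine Cg.trans ?_ (uu_sum h2 _ _).symm
        refine Cg.sum _ fun T hT => ?_
        rw [uu_mul, uu_prod]
        refine (ih T (Finset.mem_ssubsets.1 hT)).mul ?_
        refine Cg.prod _ fun k hk => ?_
        exact euler_cgi h2 hσ hp (fun i _ => hodd i) (Finset.mem_sdiff.1 hk).2
      have h7 : Cg v (tc (wi σ (DD pr V)) / tc (DD pr V) *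
          ∑ᶠ q : RQ (DD pr V), (∏ j ∈ V, pf (pr j) (e' j) (8 * q.out)) *
            gi σ L Ω (zq Ω (DD pr V) q.out)) (uu (if V = ∅ then 1 else 0)) := by
        by_cases hne : V = ∅
        · rw [if_pos hne, uu_one]
          subst hne
          have h8 : ((Finset.ssubsets (∅ : Finset ι))) = ∅ := by
            rw [Finset.eq_empty_iff_forall_notMem]
            intro T hT
            exact Finset.not_ssubset_empty _ (Finset.mem_ssubsets.1 hT)
          rw [h8, Finset.sum_empty, add_zero] at h5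
          rw [← h5]
          have h9 : bti σ L Ω pr e' ∅ = 1 := by
            unfold bti
            have h0 : lvi σ L Ω pr ∅ e' ≠ 0 := by
              rw [lvi_empty σ h]
              exact mul_ne_zero (div_ne_zero h.gl.lat.ne (by norm_num)) hG
            rw [Finset.card_empty, pow_zero, one_mul, div_self h0]
          rw [h9]
          exact Cg.refl (by rw [map_one])
        · rw [if_neg hne, uu_zero]
          apply Cg.zero
          have h8 := hrhs σ hσ L Ω s h Γ v h2 ι pr hp V e' (Finset.nonempty_iff_ne_empty.2 hne)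
            (fun i _ => hodd i)
          obtain ⟨z, hz, hz1⟩ := tc_prim h2 (DD_prim hp V)
          have h9 : v (tc (wi σ (DD pr V))) ≤ 1 := tc_le h2 _
          rw [map_mul, map_div₀, hz1, div_one]
          exact (mul_le_of_le_one_left' h9).trans_lt h8
      have h8 : bti σ L Ω pr e' V = tc (wi σ (DD pr V)) / tc (DD pr V) *
          ∑ᶠ q : RQ (DD pr V), (∏ j ∈ V, pf (pr j) (e' j) (8 * q.out)) *
            gi σ L Ω (zq Ω (DD pr V) q.out) -
          ∑ T ∈ V.ssubsets, bti σ L Ω pr e' T * ∏ k ∈ V \ T, (efi σ pr T e' k / (1 + I)) := by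
        rw [← h5]; ring
      rw [h8, bs_eq]
      have h9 := h7.sub h6
      refine h9.trans ?_
      have h10 := uu_add h2 (if V = ∅ then (1 : ZMod 2) else 0) (∑ T ∈ V.ssubsets,
        bs (wt pr) (Y699.em pr) T * ∏ k ∈ V \ T, (wt pr k + ∑ l ∈ T, Y699.em pr l k))
      refine Cg.trans ?_ h10.symm
      set a := (if V = ∅ then (1 : ZMod 2) else 0)
      set b := ∑ T ∈ V.ssubsets, bs (wt pr) (Y699.em pr) T *
        ∏ k ∈ V \ T, (wt pr k + ∑ l ∈ T, Y699.em pr l k)
      apply cg_of (v.map_add_le (v_uu a) (v_uu b))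
      have e1 : uu a - uu b - (uu a + uu b) = -(2 * uu b) := by ring
      rw [e1, Valuation.map_neg, map_mul]
      exact (mul_le_of_le_one_right' (v_uu b)).trans_lt h2
  exact key V

end Pool.Agent.D0H2.Q4
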