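import Pool.Agent.D0H2.Q4.Rhs3
import Pool.Agent.D0H43.Q4.Stm1

/-!
# Project Q4, module D1.6: the sums of the values are not units
-/

set_option autoImplicit false

open Filter Complex
open scoped Topology PeriodPair

namespace Pool.Agent.D0H2.Q4

open H385 (ZI RQ im1 nrm)
open Pool.Agent.H304R3.HK (tc)
open Pool.Agent.W164.RC (tc_mul unit_cases)
open Pool.Agent.H304R2.EC.A1 (prim prim_ne_zero prim_norm_odd)
open Pool.Agent.TH936.CM (IsLat)
open Pool.Agent.Y699 Pool.Agent.D0H10.Q4 Pool.Agent.D0H43.Q4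

variable {L : PeriodPair} {Ω : ℂ}

lemma BB_per (u w : ℂ) (hw : w ∈ L.lattice) : BB L (u + w) = BB L u := by
  unfold BB
  rw [wp_per _ _ hw, L.derivWeierstrassP_add_coe u ⟨w, hw⟩]

lemma gi_per (σ : ℕ) (u w : ℂ) (hw : w ∈ L.lattice) : gi σ L Ω (u + w) = gi σ L Ω u := by
  unfold gi GI
  have e1 : u + w + Ω / 8 = (u + Ω / 8) + w := by ring
  have e2 : (u + Ω / 8) + w + (1 + I) * (Ω / 4) = (u + Ω / 8 + (1 + I) * (Ω / 4)) + w := by ring
  rw [e1, BB_per _ _ hw, e2, BB_per _ _ hw]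

section

variable {Γ : Type} [LinearOrderedCommGroupWithZero Γ] {v : Valuation ℂ Γ} (h2 : v 2 < 1)
  {ι : Type} [DecidableEq ι] {pr : ι → ZI}

/-- the product of the factors at a class -/
noncomputable def Pq (pr : ι → ZI) (V : Finset ι) (e : ι → ℕ) (q : RQ (DD pr V)) : ℂ :=
  ∏ j ∈ V, pf (pr j) (e j) (8 * q.out)

lemma good_neg {V : Finset ι} (q : RQ (DD pr V)) : (∀ i ∈ V, ¬ pr i ∣ (-q).out) ↔
    ∀ i ∈ V, ¬ pr i ∣ q.out := by
  have h : ∀ i ∈ V, pr i ∣ (-q).out ↔ pr i ∣ q.out := by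
    intro i hi
    have h3 : pr i ∣ (-q).out - (-q.out) := (dvd_DD hi).trans (out_neg _ q)
    rw [sub_neg_eq_add] at h3
    exact ⟨fun h => (dvd_add_right h).1 h3, fun h => (dvd_add_left h).1 h3⟩
  exact ⟨fun h' i hi => by rw [← h i hi]; exact h' i hi, fun h' i hi => by rw [h i hi]; exact h' i hi⟩

lemma Pq_bad {V : Finset ι} {e : ι → ℕ} {q : RQ (DD pr V)} (hq : ¬ ∀ i ∈ V, ¬ pr i ∣ q.out) :
    Pq pr V e q = 0 := by
  push Not at hq
  obtain ⟨i, hi, hd⟩ := hq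
  exact Finset.prod_eq_zero hi (pf_zero (hd.mul_left 8))

include h2 in
/-- the sum of the products at opposite classes is divisible by `1 + i` -/
lemma Pq_add (hp : PF pr) {V : Finset ι} {e : ι → ℕ} (he : ∀ i ∈ V, e i % 2 = 1)
    (q : RQ (DD pr V)) : v (Pq pr V e q) ≤ 1 ∧
      ∃ Q : ℂ, Pq pr V e q + Pq pr V e (-q) = (1 + I) * Q ∧ v Q ≤ 1 := by
  by_cases hq : ∀ i ∈ V, ¬ pr i ∣ q.out
  · have hgood : ∀ i ∈ V, ¬ pr i ∣ 8 * q.out := fun i hi h => hq i hi ((dvd_eight (hp.pp i)).1 h)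
    have hfac : ∀ j ∈ V, v (pf (pr j) (e j) (8 * q.out)) ≤ 1 :=
      fun j hj => (pf_val h2 (hp.pp j) (he j hj) (hgood j hj)).2.l
    have hPneg : Pq pr V e (-q) = ∏ j ∈ V, pf (pr j) (e j) (-(8 * q.out)) := by
      refine Finset.prod_congr rfl fun j hj => pf_per (hp.pp j) ?_
      have h3 : pr j ∣ (-q).out - (-q.out) := (dvd_DD hj).trans (out_neg _ q)
      have e3 : 8 * (-q).out - -(8 * q.out) = 8 * ((-q).out - (-q.out)) := by ring
      rw [e3]
      exact h3.mul_left 8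
    obtain ⟨Q', hQ1, hQ2⟩ := prod_neg h2 V (fun j => pf (pr j) (e j) (8 * q.out))
      (fun j => pf (pr j) (e j) (-(8 * q.out))) (wt pr) hfac (by
        intro j hj
        rcases pf_neg (hp.pp j) (he j hj) (hgood j hj) with ⟨h3, h4⟩ | ⟨h3, h4⟩
        · left
          exact ⟨by unfold wt; rw [if_neg h3], h4⟩
        · right
          exact ⟨by unfold wt; rw [if_pos h3], h4⟩)
    refine ⟨?_, Q', ?_, hQ2.l⟩
    · unfold Pq
      rw [map_prod]
      exact Finset.prod_le_one' hfac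
    · rw [hPneg, ← hQ1]
      rfl
  · have hq' : ¬ ∀ i ∈ V, ¬ pr i ∣ (-q).out := by rw [good_neg]; exact hq
    rw [Pq_bad hq, Pq_bad hq']
    refine ⟨by rw [map_zero]; exact zero_le_one, 0, by ring, by rw [map_zero]; exact zero_le_one⟩

end

/-- **Module D1.6.** -/
theorem rhs1 (hV : S_VAL1) : S_RHS1 := by
  classical
  intro σ hσ L Ω s hN Γ _ v h2 ι _ pr hp V e hVn he
  have hval := hV σ hσ L Ω s hN Γ v h2
  have hDo : (DD pr V).norm % 2 = 1 := prim_norm_odd (DD_prim hp V)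
  have hD0 : DD pr V ≠ 0 := DD_ne hp V
  have hfin : Finite (RQ (DD pr V)) := H385.he1_finite hD0
  have : Fintype (RQ (DD pr V)) := Fintype.ofFinite _
  rw [finsum_eq_sum_of_fintype]
  obtain ⟨i0, hi0⟩ := hVn
  obtain ⟨H, hH⟩ := exists_half hDo
  have hP0 : Pq pr V e 0 = 0 := by
    apply Pq_bad
    intro h
    apply h i0 hi0
    have h3 : DD pr V ∣ (0 : RQ (DD pr V)).out := by
      have h4 := RQ_out (DD pr V) 0
      rwa [map_zero, sub_zero] at h4
    exact (dvd_DD hi0).trans h3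
  show v (∑ q, Pq pr V e q * gi σ L Ω (zq Ω (DD pr V) q.out)) < 1
  rw [sum_half hH (fun q => Pq pr V e q * gi σ L Ω (zq Ω (DD pr V) q.out))
    (by show Pq pr V e 0 * _ = 0; rw [hP0, zero_mul])]
  refine v.map_sum_lt one_ne_zero fun q _ => ?_
  split_ifs
  swap
  · rw [map_zero]; exact zero_lt_one
  by_cases hq : ∀ i ∈ V, ¬ pr i ∣ q.out
  swap
  · have hq' : ¬ ∀ i ∈ V, ¬ pr i ∣ (-q).out := by rw [good_neg]; exact hq
    rw [Pq_bad hq, Pq_bad hq', zero_mul, zero_mul, add_zero, map_zero]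
    exact zero_lt_one
  set z := zq Ω (DD pr V) q.out with hz
  have hzO : OT L z := OTq hN.gl hDo fun h => hq i0 hi0 ((dvd_DD hi0).trans h)
  have hzO' : OT L (-z) := by
    rw [hz, ← zq_neg]
    exact OTq hN.gl hDo fun h => hq i0 hi0 ((dvd_DD hi0).trans ((dvd_neg).1 h))
  have hzneg : gi σ L Ω (zq Ω (DD pr V) (-q).out) = gi σ L Ω (-z) := by
    have h3 := zq_sub hN.gl.lat hD0 (out_neg _ q)
    have e3 : zq Ω (DD pr V) (-q).out =
        -z + (zq Ω (DD pr V) (-q).out - zq Ω (DD pr V) (-q.out)) := by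
      rw [zq_neg]
      ring
    rw [e3, gi_per σ _ _ h3]
  rw [hzneg]
  obtain ⟨hP, Q, hQ, hQl⟩ := Pq_add h2 hp he q
  have e1 : Pq pr V e q * gi σ L Ω z + Pq pr V e (-q) * gi σ L Ω (-z) =
      Pq pr V e q * (gi σ L Ω z + gi σ L Ω (-z)) +
        (Q - (1 - I) * Pq pr V e q) * ((1 + I) * gi σ L Ω (-z)) := by
    linear_combination (gi σ L Ω (-z)) * hQ - Pq pr V e q * gi σ L Ω (-z) * I_sq
  rw [e1]
  refine v.map_add_lt ?_ ?_
  · rw [map_mul]
    exact lt_of_le_of_lt (mul_le_of_le_one_left' hP) (hval z hzO).2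
  · rw [map_mul]
    have h3 : v (Q - (1 - I) * Pq pr V e q) ≤ 1 := by
      refine (v.map_sub _ _).trans (max_le hQl ?_)
      rw [map_mul]
      refine mul_le_one' ?_ hP
      refine (v.map_sub _ _).trans (max_le (by rw [map_one]) (by rw [v_I]))
    refine lt_of_le_of_lt (mul_le_of_le_one_left' h3) ?_
    by_contra hcon
    push Not at hcon
    have h4 : 1 ≤ v ((1 + I) * gi σ L Ω (-z)) ^ 4 := one_le_pow₀ hcon
    have h5 := (hval (-z) hzO').1
    rw [map_mul, mul_pow] at h4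
    have h6 : v (1 + I) ^ 4 * v (gi σ L Ω (-z)) ^ 4 = v (1 + I) ^ 3 := by
      rw [pow_succ, mul_assoc, mul_comm (v (1 + I)) (v (gi σ L Ω (-z)) ^ 4), h5, mul_one]
    rw [h6] at h4
    have h7 : v (1 + I) ^ 3 < 1 := pow_lt_one₀ zero_le (v_pi_lt h2) (by norm_num)
    exact absurd (lt_of_le_of_lt h4 h7) (lt_irrefl _)

end Pool.Agent.D0H2.Q4
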