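import Pool.Agent.D0H2.Q4.Dst
import Pool.Agent.D0H43.Q4.Stm1

/-!
# Project Q4, module D1.5: valuations of the values
-/

set_option autoImplicit false

open Filter Complex
open scoped Topology PeriodPair

namespace Pool.Agent.D0H2.Q4

open H385 (ZI RQ im1 nrm)
open Pool.Agent.H304R3.HK (tc)
open Pool.Agent.Y699 Pool.Agent.D0H10.Q4 Pool.Agent.D0H43.Q4

variable {L : PeriodPair} {Ω : ℂ}

lemma OT.ng {z : ℂ} (hz : OT L z) : OT L (-z) := by
  obtain ⟨D, hD, hDz⟩ := hz.ex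
  refine ⟨fun h => hz.nm (by simpa using neg_mem h), D, hD, ?_⟩
  rw [mul_neg]
  exact neg_mem hDz

section

variable {Γ : Type*} [LinearOrderedCommGroupWithZero Γ] {v : Valuation ℂ Γ} (h2 : v 2 < 1)
  (h : GLat L Ω)

include h2 h

lemma wp_add_I {z : ℂ} (hz : OT L z) {c : ℂ} (hc : c = I ∨ c = -I) :
    v (℘[L] z + c) ^ 2 = v (1 + I) ^ 3 := by
  obtain ⟨h3, -⟩ := h.mul_pi (hz.two h)
  have hz1 := hz.pow h 1
  rw [pow_one] at hz1
  have h4 := wp_sub h2 h hz1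
  have h5 := wp_one h2 h hz
  have key : v (2 * I * ℘[L] z) = v (1 + I) ^ 2 := by
    rw [map_mul, map_mul, v_I, h5, mul_one, mul_one, v_pi_sq]
  rcases hc with rfl | rfl
  · have e : (℘[L] z + I) ^ 2 = 2 * I * ℘[L] z * (℘[L] ((1 + I) * z) + 1) := by
      linear_combination I_sq - h3
    rw [← map_pow, e, map_mul, key, h4.2]
    exact (pow_succ _ 2).symm
  · have e : (℘[L] z + -I) ^ 2 = 2 * I * ℘[L] z * (℘[L] ((1 + I) * z) - 1) := by
      linear_combination I_sq - h3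
    rw [← map_pow, e, map_mul, key, h4.1]
    exact (pow_succ _ 2).symm

lemma wp_q {z : ℂ} (hz : OT L z) :
    v (℘[L] z ^ 2 - 2 * ℘[L] z - 1) ^ 2 = v (1 + I) ^ 7 := by
  obtain ⟨h3, -⟩ := h.mul_pi (hz.two h)
  have hz1 := hz.pow h 1
  rw [pow_one] at hz1
  have h5 := wp_one h2 h hz
  have key : v (2 * I * ℘[L] z) = v (1 + I) ^ 2 := by
    rw [map_mul, map_mul, v_I, h5, mul_one, mul_one, v_pi_sq]
  have e : ℘[L] z ^ 2 - 2 * ℘[L] z - 1 = 2 * I * ℘[L] z * (℘[L] ((1 + I) * z) + I) := by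
    linear_combination -h3 - 2 * ℘[L] z * I_sq
  rw [e, map_mul, key, mul_pow, wp_add_I h2 h hz1 (Or.inl rfl), ← pow_mul, ← pow_add]

/-- the two factors of the denominators -/
lemma den_val {z : ℂ} (hz : OT L z) :
    v (℘'[L] z - 2 * ℘[L] z - 2) ^ 4 = v (1 + I) ^ 17 := by
  have hl := v_pi_lt h2
  have hl0 := v_pi_ne (v := v)
  have h1 := (wp_sub h2 h hz).2
  have hq := wp_q h2 h hz
  have heq := h.eqn hz.nm
  set x := ℘[L] z
  set y := ℘'[L] z
  set g := v (1 + I)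
  have h4 : v (4 : ℂ) = g ^ 4 := by
    have e : (4 : ℂ) = 2 * 2 := by norm_num
    rw [e, map_mul, ← v_pi_sq, ← pow_add]
  have hAB : (v (y - 2 * x - 2) * v (y + 2 * x + 2)) ^ 2 = g ^ 17 := by
    have e : (y - 2 * x - 2) * (y + 2 * x + 2) = 4 * (x + 1) * (x ^ 2 - 2 * x - 1) := by
      linear_combination heq
    rw [← map_mul, e, map_mul, map_mul, h4, h1, mul_pow, hq, ← pow_succ, ← pow_mul, ← pow_add]
  have hd : v ((y + 2 * x + 2) - (y - 2 * x - 2)) = g ^ 5 := by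
    have e : (y + 2 * x + 2) - (y - 2 * x - 2) = 4 * (x + 1) := by ring
    rw [e, map_mul, h4, h1, ← pow_succ]
  have hgp : 0 < g := zero_lt_iff.2 hl0
  have hlt : ∀ a b : Γ, a < b → b = g ^ 5 → (a * b) ^ 2 = g ^ 17 → False := by
    intro a b hab hb h5
    rw [hb] at hab h5
    rw [mul_pow, ← pow_mul] at h5
    have h6 : a ^ 2 * g ^ 10 < (g ^ 5) ^ 2 * g ^ 10 :=
      mul_lt_mul_of_pos_right (pow_lt_pow_left₀ hab zero_le two_ne_zero) (pow_pos hgp 10)
    rw [h5, ← pow_mul, ← pow_add] at h6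
    have h7 : g ^ 20 < g ^ 17 := pow_lt_pow_right_of_lt_one₀ hgp hl (by norm_num)
    exact absurd (h6.trans h7) (lt_irrefl _)
  have hE : v (y - 2 * x - 2) = v (y + 2 * x + 2) := by
    rcases lt_trichotomy (v (y - 2 * x - 2)) (v (y + 2 * x + 2)) with h5 | h5 | h5
    · exfalso
      refine hlt _ _ h5 ?_ hAB
      rw [← hd, Valuation.map_sub_eq_of_lt_left v h5]
    · exact h5
    · exfalso
      refine hlt _ _ h5 ?_ (by rw [mul_comm]; exact hAB)
      rw [← hd, Valuation.map_sub_eq_of_lt_right v h5]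
  rw [← hE, ← sq, ← pow_mul] at hAB
  exact hAB

end

lemma I_pow_odd' {σ : ℕ} (hσ : σ % 2 = 1) : I ^ σ = I ∨ I ^ σ = -I := by
  have h : σ % 4 = 1 ∨ σ % 4 = 3 := by omega
  have e : I ^ σ = I ^ (σ % 4) := by
    conv_lhs => rw [← Nat.div_add_mod σ 4]
    rw [pow_add, pow_mul, Complex.I_pow_four, one_pow, one_mul]
  rcases h with h | h
  · left
    rw [e, h, pow_one]
  · right
    rw [e, h, pow_succ, I_sq]
    ring

/-- **Module D1.5.** -/
theorem val1 (hG : S_GID1) : S_VAL1 := by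
  intro σ hσ L Ω s hN Γ _ v h2 z hz
  obtain ⟨hG0, hGz⟩ := hG σ hσ L Ω s hN
  have h := hN.gl
  have h0 : GI σ L Ω 0 ≠ 0 := by
    intro h0
    rw [h0] at hG0
    have h3 := hN.ss
    have h4 : s ≠ 0 := by
      rintro rfl
      norm_num at h3
    have h5 : (1 : ℂ) - I ^ σ ≠ 0 := by
      intro h6
      have h7 := congrArg Complex.re h6
      rcases I_pow_odd' hσ with h8 | h8 <;> rw [h8] at h7 <;> simp at h7
    have h6 : (8 : ℂ) * s * (1 - I ^ σ) ≠ 0 := mul_ne_zero (mul_ne_zero (by norm_num) h4) h5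
    apply h6
    rw [← hG0]
    norm_num
  have hw := OT.dbl h hz
  have hgen : ∀ u, OT L u → gi σ L Ω u ^ 2 * (℘'[L] (2 * u) - 2 * ℘[L] (2 * u) - 2) ^ 2 =
      4 * (℘[L] (2 * u) + I ^ σ) ^ 2 * (℘[L] (2 * u) + 1) := by
    intro u hu
    have h3 := hGz u hu
    unfold gi
    rw [div_pow]
    field_simp
    linear_combination h3
  have e1 := hgen z hz
  have e2 := hgen (-z) (OT.ng hz)
  have hm : 2 * -z = -(2 * z) := by ring
  rw [hm, L.weierstrassP_neg, L.derivWeierstrassP_neg] at e2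
  have hI := wp_add_I h2 h hw (I_pow_odd' hσ)
  have hq := wp_q h2 h hw
  have hA := den_val h2 h hw
  have hx1 := wp_sub h2 h hw
  have hxv := wp_one h2 h hw
  have heq := h.eqn hw.nm
  have hl := v_pi_lt h2
  have hl0 := v_pi_ne (v := v)
  set x := ℘[L] (2 * z)
  set y := ℘'[L] (2 * z)
  set a := gi σ L Ω z
  set b := gi σ L Ω (-z)
  set c := x + I ^ σ
  have h4 : v (4 : ℂ) = v (1 + I) ^ 4 := by
    have e : (4 : ℂ) = 2 * 2 := by norm_num
    rw [e, map_mul, ← v_pi_sq, ← pow_add]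
  refine ⟨?_, ?_⟩
  · have h5 := congrArg v e1
    rw [map_mul, map_mul, map_mul, map_pow, map_pow, map_pow, h4, hI, hx1.2, ← pow_add, ← pow_succ] at h5
    have h6 : v a ^ 4 * v (y - 2 * x - 2) ^ 4 = v (1 + I) ^ 16 := by
      have h7 := congrArg (fun t => t ^ 2) h5
      rw [mul_pow, ← pow_mul, ← pow_mul, ← pow_mul] at h7
      exact h7
    have h8 : v (1 + I) ^ 17 = v (1 + I) * v (1 + I) ^ 16 := pow_succ' _ 16
    rw [hA, h8, ← mul_assoc] at h6
    have h7 : v (1 + I) ^ 16 ≠ 0 := pow_ne_zero _ hl0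
    exact mul_right_cancel₀ h7 (by rw [h6, one_mul])
  · have hx0 : x + 1 ≠ 0 := by
      intro h5
      rw [h5, map_zero] at hx1
      exact hl0 hx1.2.symm
    have hq0 : x ^ 2 - 2 * x - 1 ≠ 0 := by
      intro h5
      rw [h5, map_zero, zero_pow two_ne_zero] at hq
      exact pow_ne_zero 7 hl0 hq.symm
    set q := x ^ 2 - 2 * x - 1 with hqd
    have hAB : (y - 2 * x - 2) * (y + 2 * x + 2) = 4 * (x + 1) * q := by
      rw [hqd]
      linear_combination heq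
    -- the product
    have p1 : (a * b * q) ^ 2 = (c ^ 2) ^ 2 := by
      have h16 : (16 : ℂ) * (x + 1) ^ 2 ≠ 0 := mul_ne_zero (by norm_num) (pow_ne_zero 2 hx0)
      apply mul_left_cancel₀ h16
      have e3 : (a ^ 2 * (y - 2 * x - 2) ^ 2) * (b ^ 2 * (-y - 2 * x - 2) ^ 2) =
          (4 * c ^ 2 * (x + 1)) * (4 * c ^ 2 * (x + 1)) := by rw [e1, e2]
      have e4 : (a ^ 2 * (y - 2 * x - 2) ^ 2) * (b ^ 2 * (-y - 2 * x - 2) ^ 2) =
          (a * b) ^ 2 * ((y - 2 * x - 2) * (y + 2 * x + 2)) ^ 2 := by ring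
      rw [e4, hAB] at e3
      linear_combination e3
    have p2 : (a ^ 2 + b ^ 2) * q ^ 2 = 2 * c ^ 2 * (x ^ 2 + 1) := by
      have h4x : (4 : ℂ) * (x + 1) * (4 * (x + 1)) ≠ 0 :=
        mul_ne_zero (mul_ne_zero (by norm_num) hx0) (mul_ne_zero (by norm_num) hx0)
      apply mul_left_cancel₀ h4x
      have e3 : 4 * (x + 1) * (4 * (x + 1)) * ((a ^ 2 + b ^ 2) * q ^ 2) =
          (a ^ 2 + b ^ 2) * ((y - 2 * x - 2) * (y + 2 * x + 2)) ^ 2 := by
        rw [hAB]; ring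
      have e4 : (a ^ 2 + b ^ 2) * ((y - 2 * x - 2) * (y + 2 * x + 2)) ^ 2 =
          (a ^ 2 * (y - 2 * x - 2) ^ 2) * (y + 2 * x + 2) ^ 2 +
          (b ^ 2 * (-y - 2 * x - 2) ^ 2) * (y - 2 * x - 2) ^ 2 := by ring
      rw [e3, e4, e1, e2]
      linear_combination (8 * c ^ 2 * (x + 1)) * heq
    have h8 : v (1 + I) ^ 8 = v (1 + I) ^ 7 * v (1 + I) := pow_succ _ 7
    have fin : ∀ r : ℂ, v r = v (1 + I) → (a + b) ^ 2 * q ^ 2 = 4 * c ^ 2 * r →
        v (a + b) < 1 := by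
      intro r hr h5
      have h6 := congrArg v h5
      rw [map_mul, map_mul, map_mul, map_pow, map_pow, map_pow, h4, hI, hq, hr, ← pow_add,
        ← pow_succ, h8, mul_comm (v (1 + I) ^ 7)] at h6
      have h7 := mul_right_cancel₀ (pow_ne_zero 7 hl0) h6
      by_contra hcon
      push Not at hcon
      have h9 : 1 ≤ v (a + b) ^ 2 := one_le_pow₀ hcon
      rw [h7] at h9
      exact absurd hl (not_lt.2 h9)
    have p3 : (a * b * q - c ^ 2) * (a * b * q + c ^ 2) = 0 := by linear_combination p1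
    rcases mul_eq_zero.1 p3 with p4 | p4
    · refine fin (x * (x - 1)) ?_ ?_
      · rw [map_mul, hxv, one_mul, hx1.1]
      · rw [hqd] at p4 p2 ⊢
        linear_combination p2 + 2 * (x ^ 2 - 2 * x - 1) * p4
    · refine fin (x + 1) hx1.2 ?_
      rw [hqd] at p4 p2 ⊢
      linear_combination p2 + 2 * (x ^ 2 - 2 * x - 1) * p4

end Pool.Agent.D0H2.Q4
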