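import Pool.Agent.D0H2.Q4.Rhs2

/-!
# Project Q4, module A10: the theorem
-/

set_option autoImplicit false

open Filter Complex
open scoped Topology PeriodPair

namespace Pool.Agent.D0H2.Q4

open H385 (ZI RQ im1 nrm)
open Pool.Agent.H304R3.HK (tc)
open Pool.Agent.W164.RC (tc_mul unit_cases)
open Pool.Agent.H304R2.EC.A1 (prim prim_ne_zero prim_norm_odd)
open Pool.Agent.TH936.CM (IsLat)
open Pool.Agent.Y699 Pool.Agent.D0H10.Q4

variable {L : PeriodPair} {Ω : ℂ}

lemma AA_per (u w : ℂ) (hw : w ∈ L.lattice) : AA L (u + w) = AA L u := by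
  unfold AA
  rw [wp_per _ _ hw, L.derivWeierstrassP_add_coe u ⟨w, hw⟩]

lemma gg_per (u w : ℂ) (hw : w ∈ L.lattice) : gg L Ω (u + w) = gg L Ω u := by
  unfold gg GG
  have e1 : u + w + Ω / 8 = (u + Ω / 8) + w := by ring
  have e2 : (u + Ω / 8) + w + I * (Ω / 4) = (u + Ω / 8 + I * (Ω / 4)) + w := by ring
  rw [e1, AA_per _ _ hw, e2, AA_per _ _ hw]

section

variable {Γ : Type} [LinearOrderedCommGroupWithZero Γ] {v : Valuation ℂ Γ}

lemma res_prod {κ : Type*} (s : Finset κ) {f : κ → ℂ} (h : ∀ i ∈ s, v (f i) ≤ 1) :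
    res v (∏ i ∈ s, f i) = ∏ i ∈ s, res v (f i) := by
  classical
  induction s using Finset.induction_on with
  | empty => rw [Finset.prod_empty, Finset.prod_empty, res_one]
  | insert a s ha ih =>
    have h1 : v (∏ i ∈ s, f i) ≤ 1 := by
      rw [map_prod]
      exact Finset.prod_le_one' fun i hi => h i (Finset.mem_insert_of_mem hi)
    rw [Finset.prod_insert ha, Finset.prod_insert ha, res_mul (h a (Finset.mem_insert_self _ _)) h1,
      ih fun i hi => h i (Finset.mem_insert_of_mem hi)]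

lemma lt_of_res {x : ℂ} (hx : v x ≤ 1) (h : res v x = 0) : v x < 1 := by
  rw [← res_zero] at h
  exact (cg_res hx (by rw [map_zero]; exact zero_le_one) h).lt

lemma exists_tc {κ : Type*} (s : Finset κ) (f : κ → ℂ) (h : ∀ q ∈ s, ∃ b : ZI, f q = tc b) :
    ∃ M : ZI, ∑ q ∈ s, f q = tc M := by
  classical
  induction s using Finset.induction_on with
  | empty => exact ⟨0, by rw [Finset.sum_empty, tc_zero]⟩
  | insert a s ha ih =>
    obtain ⟨M, hM⟩ := ih fun q hq => h q (Finset.mem_insert_of_mem hq)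
    obtain ⟨b, hb⟩ := h a (Finset.mem_insert_self _ _)
    exact ⟨b + M, by rw [Finset.sum_insert ha, hM, hb, tc_add]⟩

lemma exists_tc_prod {κ : Type*} (s : Finset κ) (f : κ → ℂ) (h : ∀ q ∈ s, ∃ b : ZI, f q = tc b) :
    ∃ M : ZI, ∏ q ∈ s, f q = tc M := by
  classical
  induction s using Finset.induction_on with
  | empty => exact ⟨1, by rw [Finset.prod_empty, tc_one]⟩
  | insert a s ha ih =>
    obtain ⟨M, hM⟩ := ih fun q hq => h q (Finset.mem_insert_of_mem hq)
    obtain ⟨b, hb⟩ := h a (Finset.mem_insert_self _ _)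
    exact ⟨b * M, by rw [Finset.prod_insert ha, hM, hb, tc_mul]⟩

end

lemma dvd_eight {π : ZI} (h : PP π) {t : ZI} : π ∣ 8 * t ↔ π ∣ t := by
  refine ⟨fun h1 => ?_, fun h1 => h1.mul_left 8⟩
  have e : (8 : ZI) * t = 2 * (2 * (2 * t)) := by ring
  rw [e] at h1
  have h2 := not_dvd_two h
  exact (h.pr.dvd_or_dvd ((h.pr.dvd_or_dvd ((h.pr.dvd_or_dvd h1).resolve_left h2)).resolve_left
    h2)).resolve_left h2

/-- **Module A10.** -/
theorem rhs (hV : S_VAL) (hD : S_DST) (hP : S_PSI) : S_RHS := by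
  classical
  intro L Ω s hN Γ _ v h2 ι _ pr hp V e hVn he
  obtain ⟨δ, hδ, hg1, hg2⟩ := hV L Ω s hN Γ v h2
  have hDo : (DD pr V).norm % 2 = 1 := prim_norm_odd (DD_prim hp V)
  have hD0 : DD pr V ≠ 0 := DD_ne hp V
  have hcp : (cp (DD pr V)).norm % 2 = 1 := by
    unfold cp
    split_ifs
    · exact hDo
    · rw [Zsqrtd.norm_neg]; exact hDo
  have hcd : ∀ t, cp (DD pr V) ∣ t ↔ DD pr V ∣ t := by
    intro t
    unfold cp
    split_ifs
    · exact Iff.rfl
    · exact neg_dvd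
  have hfin : Finite (RQ (DD pr V)) := H385.he1_finite hD0
  have : Fintype (RQ (DD pr V)) := Fintype.ofFinite _
  rw [finsum_eq_sum_of_fintype]
  obtain ⟨i0, hi0⟩ := hVn
  have hD1 : ¬ DD pr V ∣ 1 := fun h =>
    (hp.pp i0).pr.not_isUnit (isUnit_of_dvd_one ((dvd_DD hi0).trans h))
  have hwO : OT L (zq Ω (DD pr V) 1) := OTq hN.gl hDo hD1
  obtain ⟨H, hH⟩ := exists_half hDo
  set w := zq Ω (DD pr V) 1 with hw
  -- the products
  set P : RQ (DD pr V) → ℂ := fun q => ∏ j ∈ V, pf (pr j) (e j) (8 * q.out) with hPd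
  have hgood : ∀ q : RQ (DD pr V), (∀ i ∈ V, ¬ pr i ∣ q.out) → ∀ i ∈ V, ¬ pr i ∣ 8 * q.out :=
    fun q hq i hi h => hq i hi ((dvd_eight (hp.pp i)).1 h)
  have hgD : ∀ q : RQ (DD pr V), (∀ i ∈ V, ¬ pr i ∣ q.out) → ¬ DD pr V ∣ q.out :=
    fun q hq h => hq i0 hi0 ((dvd_DD hi0).trans h)
  have hbad : ∀ q : RQ (DD pr V), ¬ (∀ i ∈ V, ¬ pr i ∣ q.out) → P q = 0 := by
    intro q hq
    push Not at hq
    obtain ⟨i, hi, hd⟩ := hq
    exact Finset.prod_eq_zero hi (pf_zero (hd.mul_left 8))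
  have hgneg : ∀ q : RQ (DD pr V), ∀ i ∈ V, pr i ∣ (-q).out ↔ pr i ∣ q.out := by
    intro q i hi
    have h3 : pr i ∣ (-q).out - (-q.out) := (dvd_DD hi).trans (out_neg _ q)
    rw [sub_neg_eq_add] at h3
    exact ⟨fun h => (dvd_add_right h).1 h3, fun h => (dvd_add_left h).1 h3⟩
  have hPneg : ∀ q, P (-q) = ∏ j ∈ V, pf (pr j) (e j) (-(8 * q.out)) := by
    intro q
    refine Finset.prod_congr rfl fun j hj => pf_per (hp.pp j) ?_
    have h3 : pr j ∣ (-q).out - (-q.out) := (dvd_DD hj).trans (out_neg _ q)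
    have e3 : 8 * (-q).out - -(8 * q.out) = 8 * ((-q).out - (-q.out)) := by ring
    rw [e3]
    exact h3.mul_left 8
  have hbad' : ∀ q : RQ (DD pr V), ¬ (∀ i ∈ V, ¬ pr i ∣ q.out) → P (-q) = 0 := by
    intro q hq
    apply hbad
    intro h
    exact hq fun i hi => by rw [← hgneg q i hi]; exact h i hi
  have hfac : ∀ q : RQ (DD pr V), (∀ i ∈ V, ¬ pr i ∣ q.out) → ∀ j ∈ V,
      (∃ b : ZI, pf (pr j) (e j) (8 * q.out) = tc b) ∧
      Cg v (pf (pr j) (e j) (8 * q.out)) (uu (oo pr j q.out)) := by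
    intro q hq j hj
    exact pf_val h2 (hp.pp j) (he j hj) (hgood q hq j hj)
  have hPtc : ∀ q, ∃ b : ZI, P q = tc b := by
    intro q
    by_cases hq : ∀ i ∈ V, ¬ pr i ∣ q.out
    · exact exists_tc_prod V _ fun j hj => (hfac q hq j hj).1
    · exact ⟨0, by rw [hbad q hq, tc_zero]⟩
  have hPle : ∀ q, v (P q) ≤ 1 := by
    intro q
    obtain ⟨b, hb⟩ := hPtc q
    rw [hb]
    exact v_tc b
  have hP0 : P 0 = 0 := by
    apply hbad
    intro h
    apply h i0 hi0
    have h3 : DD pr V ∣ (0 : RQ (DD pr V)).out := by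
      have h4 := RQ_out (DD pr V) 0
      rwa [map_zero, sub_zero] at h4
    exact (dvd_DD hi0).trans h3
  have hPres : ∀ q : RQ (DD pr V), (∀ i ∈ V, ¬ pr i ∣ q.out) →
      res v (P q) = uA (∏ i ∈ V, oo pr i q.out) := by
    intro q hq
    rw [res_prod V fun j hj => (hfac q hq j hj).2.l, uA_prod]
    refine Finset.prod_congr rfl fun j hj => ?_
    rw [res_cg (hfac q hq j hj).2, res_uu]
  -- the quotients
  set Q : RQ (DD pr V) → ℂ := fun q => (P q + P (-q)) / (1 + I) with hQd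
  have hl := one_I_ne
  have hQm : ∀ q, (1 + I) * Q q = P q + P (-q) := fun q => by
    rw [hQd]
    field_simp
  have hQval : ∀ q : RQ (DD pr V), (∀ i ∈ V, ¬ pr i ∣ q.out) → v (Q q) ≤ 1 ∧
      res v (Q q) = ∑ j ∈ V, uA (wt pr j * ∏ k ∈ V.erase j, oo pr k q.out) := by
    intro q hq
    obtain ⟨Q', hQ1, hQ2⟩ := prod_neg h2 V (fun j => pf (pr j) (e j) (8 * q.out))
      (fun j => pf (pr j) (e j) (-(8 * q.out))) (wt pr) (fun j hj => (hfac q hq j hj).2.l) (by
        intro j hj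
        rcases pf_neg (hp.pp j) (he j hj) (hgood q hq j hj) with ⟨h3, h4⟩ | ⟨h3, h4⟩
        · left
          exact ⟨by unfold wt; rw [if_neg h3], h4⟩
        · right
          exact ⟨by unfold wt; rw [if_pos h3], h4⟩)
    have hQe : Q q = Q' := by
      apply mul_left_cancel₀ hl
      rw [hQm, hPneg, ← hQ1]
    rw [hQe]
    refine ⟨hQ2.l, ?_⟩
    have hle : ∀ j ∈ V, ∀ k ∈ V.erase j, v (pf (pr k) (e k) (8 * q.out)) ≤ 1 :=
      fun j _ k hk => (hfac q hq k (Finset.mem_of_mem_erase hk)).2.l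
    have hle2 : ∀ j ∈ V, v (∏ k ∈ V.erase j, pf (pr k) (e k) (8 * q.out)) ≤ 1 := by
      intro j hj
      rw [map_prod]
      exact Finset.prod_le_one' fun k hk => hle j hj k hk
    rw [res_cg hQ2, res_sum]
    · refine Finset.sum_congr rfl fun j hj => ?_
      rw [res_mul (v_uu _) (hle2 j hj), res_uu, uA_mul, uA_prod, res_prod _ (hle j hj)]
      congr 1
      refine Finset.prod_congr rfl fun k hk => ?_
      rw [res_cg (hfac q hq k (Finset.mem_of_mem_erase hk)).2, res_uu]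
    · intro j hj
      rw [map_mul]
      exact mul_le_one' (v_uu _) (hle2 j hj)
  have hQbad : ∀ q : RQ (DD pr V), ¬ (∀ i ∈ V, ¬ pr i ∣ q.out) → Q q = 0 := by
    intro q hq
    show (P q + P (-q)) / (1 + I) = 0
    rw [hbad q hq, hbad' q hq, add_zero, zero_div]
  have hQle : ∀ q, v (Q q) ≤ 1 := by
    intro q
    by_cases hq : ∀ i ∈ V, ¬ pr i ∣ q.out
    · exact (hQval q hq).1
    · rw [hQbad q hq, map_zero]
      exact zero_le_one
  -- the points
  set z : RQ (DD pr V) → ℂ := fun q => zq Ω (cp (DD pr V)) q.out with hzd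
  have hzO : ∀ q : RQ (DD pr V), (∀ i ∈ V, ¬ pr i ∣ q.out) → OT L (z q) :=
    fun q hq => OTq hN.gl hcp (by rw [hcd]; exact hgD q hq)
  have hzO' : ∀ q : RQ (DD pr V), (∀ i ∈ V, ¬ pr i ∣ q.out) → OT L (-z q) := by
    intro q hq
    have h3 : -z q = zq Ω (cp (DD pr V)) (-q.out) := (zq_neg _ _).symm
    rw [h3]
    exact OTq hN.gl hcp (by rw [hcd, dvd_neg]; exact hgD q hq)
  have hzneg : ∀ q, gg L Ω (z (-q)) = gg L Ω (-z q) := by
    intro q
    have h3 := zq_sub hN.gl.lat (norm_odd_ne hcp) ((hcd _).2 (out_neg _ q))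
    have e3 : z (-q) = -z q + (zq Ω (cp (DD pr V)) (-q).out - zq Ω (cp (DD pr V)) (-q.out)) := by
      show zq Ω (cp (DD pr V)) (-q).out = -zq Ω (cp (DD pr V)) q.out + _
      rw [zq_neg]
      ring
    rw [e3, gg_per _ _ h3]
  have hXz : ∀ q, Xd L (z q) w = Xd L (zq Ω (DD pr V) q.out) w := by
    intro q
    show Xd L (zq Ω (cp (DD pr V)) q.out) w = _
    unfold cp
    split_ifs
    · rfl
    · have e3 : zq Ω (-DD pr V) q.out = -zq Ω (DD pr V) q.out := by
        unfold zq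
        rw [tc_neg, div_neg]
      rw [e3, Xd_neg]
  have hXle : ∀ q : RQ (DD pr V), (∀ i ∈ V, ¬ pr i ∣ q.out) → v (Xd L (z q) w) ≤ 1 :=
    fun q hq => (hg2 _ _ (hzO q hq) hwO).1
  -- the two identities in the residue ring
  have hF := Fr_dst hD hN h2 hwO
  have h2A := res_two h2
  have k1 := hP (AA' v) h2A ι pr hp V ⟨i0, hi0⟩ _ hF H hH
  have k2 := hP (AA' v) h2A ι pr hp V ⟨i0, hi0⟩ _ (Dst.succ h2A hF) H hH
  rw [finsum_half] at k1 k2
  set S : RQ (DD pr V) → AA' v :=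
    fun q => ∑ j ∈ V, uA (wt pr j * ∏ k ∈ V.erase j, oo pr k q.out) with hSd
  have k3 : ∑ q, (if q ∈ H then (if ∀ i ∈ V, ¬ pr i ∣ q.out then S q else 0) else 0) = 0 := by
    have k4 := congrArg₂ (fun x y : AA' v => x - y) k2 k1
    simp only [sub_zero] at k4
    rw [← Finset.sum_sub_distrib] at k4
    refine Eq.trans (Finset.sum_congr rfl fun q _ => ?_) k4
    by_cases hq : q ∈ H
    · rw [if_pos hq, if_pos hq, if_pos hq]
      by_cases hq2 : ∀ i ∈ V, ¬ pr i ∣ q.out
      · rw [if_pos hq2, if_pos hq2, if_pos hq2, ← Finset.sum_mul, ← Finset.sum_mul]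
        ring
      · rw [if_neg hq2, if_neg hq2, if_neg hq2, sub_zero]
    · rw [if_neg hq, if_neg hq, if_neg hq, sub_zero]
  -- the sum of the quotients
  set N : ℂ := ∑ q, if q ∈ H then Q q else 0 with hNd
  have hNle : v N < 1 := by
    apply lt_of_res
    · refine v.map_sum_le fun q _ => ?_
      split_ifs
      · exact hQle q
      · rw [map_zero]; exact zero_le_one
    · rw [hNd, res_sum]
      · rw [← k3]
        refine Finset.sum_congr rfl fun q _ => ?_
        by_cases hq : q ∈ H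
        · rw [if_pos hq, if_pos hq]
          by_cases hq2 : ∀ i ∈ V, ¬ pr i ∣ q.out
          · rw [if_pos hq2]
            exact (hQval q hq2).2
          · rw [if_neg hq2, hQbad q hq2, res_zero]
        · rw [if_neg hq, if_neg hq, res_zero]
      · intro q _
        split_ifs
        · exact hQle q
        · rw [map_zero]; exact zero_le_one
  have hN1 : (1 + I) * N = ∑ q, P q := by
    rw [sum_half hH P hP0, hNd, Finset.mul_sum]
    refine Finset.sum_congr rfl fun q _ => ?_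
    split_ifs
    · exact hQm q
    · rw [mul_zero]
  have hN2 : v N ≤ v (1 + I) := by
    obtain ⟨M, hM⟩ := exists_tc Finset.univ P fun q _ => hPtc q
    rw [hM] at hN1
    have h3 : v (tc M) < 1 := by
      rw [← hN1, map_mul]
      exact lt_of_le_of_lt (mul_le_of_le_one_right' hNle.le) (v_pi_lt h2)
    obtain ⟨c, hc⟩ := even_of_lt h2 h3
    rw [hc, tc_mul, tc_pi1] at hN1
    have h4 := mul_left_cancel₀ hl hN1
    rw [h4] at hNle
    obtain ⟨c', hc'⟩ := even_of_lt h2 hNle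
    rw [h4, hc', tc_mul, tc_pi1, map_mul]
    exact mul_le_of_le_one_right' (v_tc _)
  have hN3 : v ((1 + I) * gg L Ω w * N) < 1 := by
    by_contra hcon
    push Not at hcon
    have h3 : 1 ≤ v ((1 + I) * gg L Ω w * N) ^ 4 := one_le_pow₀ hcon
    have h4 := (hg1 w hwO).2
    have h5 : v ((1 + I) * gg L Ω w * N) ^ 4 ≤ v (1 + I) ^ 3 := by
      rw [map_mul, map_mul]
      calc (v (1 + I) * v (gg L Ω w) * v N) ^ 4 ≤ (v (1 + I) * v (gg L Ω w) * v (1 + I)) ^ 4 := by
            gcongr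
        _ = v (gg L Ω w) ^ 4 * v (1 + I) ^ 5 * v (1 + I) ^ 3 := by
            have e5 : v (1 + I) * v (gg L Ω w) * v (1 + I) = v (gg L Ω w) * v (1 + I) ^ 2 := by
              rw [mul_comm (v (1 + I)) (v (gg L Ω w)), mul_assoc, sq]
            rw [e5, mul_pow, ← pow_mul, mul_assoc, ← pow_add]
        _ = v (1 + I) ^ 3 := by rw [h4, one_mul]
    have h6 : v (1 + I) ^ 3 < 1 := pow_lt_one₀ zero_le' (v_pi_lt h2) (by norm_num)
    exact absurd (lt_of_le_of_lt (h3.trans h5) h6) (lt_irrefl _)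
  -- the sum
  have hs := sum_half hH (fun q => P q * gg L Ω (z q)) (by
    show P 0 * gg L Ω (z 0) = 0
    rw [hP0, zero_mul])
  have hs2 : ∑ q, P q * gg L Ω (z q) =
      (∑ q, if q ∈ H then (P q * gg L Ω (z q) + P (-q) * gg L Ω (z (-q)) -
        (1 + I) * gg L Ω w * Q q) else 0) + (1 + I) * gg L Ω w * N := by
    rw [hs, hNd, Finset.mul_sum, ← Finset.sum_add_distrib]
    refine Finset.sum_congr rfl fun q _ => ?_
    split_ifs
    · ring
    · ring
  have hterm : ∀ q : RQ (DD pr V), (∀ i ∈ V, ¬ pr i ∣ q.out) →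
      Cg v (P q * gg L Ω (z q) + P (-q) * gg L Ω (z (-q)) - (1 + I) * gg L Ω w * Q q)
        (δ * (P q + Q q * Xd L (z q) w)) := by
    intro q hq
    have a1 := (hg1 _ (hzO q hq)).1
    have a2 := (hg2 _ _ (hzO' q hq) hwO).2
    rw [Xd_neg] at a2
    have a3 := ((Cg.refl (hPle q)).mul a1).add ((Cg.refl (hQle q)).mul a2)
    have e1 : P q * gg L Ω (z q) + P (-q) * gg L Ω (z (-q)) - (1 + I) * gg L Ω w * Q q =
        P q * (gg L Ω (z q) - gg L Ω (-z q)) +
          Q q * ((1 + I) * (gg L Ω (-z q) - gg L Ω w)) := by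
      rw [hzneg]
      linear_combination (-gg L Ω (-z q)) * hQm q
    have e2 : δ * (P q + Q q * Xd L (z q) w) = P q * δ + Q q * (δ * Xd L (z q) w) := by ring
    rw [e1, e2]
    exact a3
  have hsum : Cg v (∑ q, if q ∈ H then (P q * gg L Ω (z q) + P (-q) * gg L Ω (z (-q)) -
        (1 + I) * gg L Ω w * Q q) else 0)
      (∑ q, if q ∈ H then (if ∀ i ∈ V, ¬ pr i ∣ q.out then
        δ * (P q + Q q * Xd L (z q) w) else 0) else 0) := by
    refine Cg.sum _ fun q _ => ?_
    by_cases hq : q ∈ H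
    · rw [if_pos hq, if_pos hq]
      by_cases hq2 : ∀ i ∈ V, ¬ pr i ∣ q.out
      · rw [if_pos hq2]
        exact hterm q hq2
      · rw [if_neg hq2, hbad q hq2, hbad' q hq2, hQbad q hq2]
        simp only [zero_mul, mul_zero, add_zero, sub_zero]
        exact Cg.refl (by rw [map_zero]; exact zero_le_one)
    · rw [if_neg hq, if_neg hq]
      exact Cg.refl (by rw [map_zero]; exact zero_le_one)
  have hR : v (∑ q, if q ∈ H then (if ∀ i ∈ V, ¬ pr i ∣ q.out then
        δ * (P q + Q q * Xd L (z q) w) else 0) else 0) < 1 := by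
    have e1 : (∑ q, if q ∈ H then (if ∀ i ∈ V, ¬ pr i ∣ q.out then
        δ * (P q + Q q * Xd L (z q) w) else 0) else 0) =
        δ * ∑ q, if q ∈ H then (if ∀ i ∈ V, ¬ pr i ∣ q.out then
          (P q + Q q * Xd L (z q) w) else 0) else 0 := by
      rw [Finset.mul_sum]
      refine Finset.sum_congr rfl fun q _ => ?_
      split_ifs
      · rfl
      · rw [mul_zero]
      · rw [mul_zero]
    rw [e1, map_mul, hδ, one_mul]
    have hle : ∀ q : RQ (DD pr V), (∀ i ∈ V, ¬ pr i ∣ q.out) → v (Q q * Xd L (z q) w) ≤ 1 := by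
      intro q hq
      rw [map_mul]
      exact mul_le_one' (hQle q) (hXle q hq)
    have hle2 : ∀ q : RQ (DD pr V), v (if q ∈ H then (if ∀ i ∈ V, ¬ pr i ∣ q.out then
          (P q + Q q * Xd L (z q) w) else 0) else 0) ≤ 1 := by
      intro q
      split_ifs with h3 h4
      · exact v.map_add_le (hPle q) (hle q h4)
      · rw [map_zero]; exact zero_le_one
      · rw [map_zero]; exact zero_le_one
    apply lt_of_res
    · exact v.map_sum_le fun q _ => hle2 q
    · rw [res_sum _ fun q _ => hle2 q, ← k1]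
      refine Finset.sum_congr rfl fun q _ => ?_
      by_cases hq : q ∈ H
      · rw [if_pos hq, if_pos hq]
        by_cases hq2 : ∀ i ∈ V, ¬ pr i ∣ q.out
        · rw [if_pos hq2, if_pos hq2, res_add (hPle q) (hle q hq2),
            res_mul (hQle q) (hXle q hq2), hPres q hq2, (hQval q hq2).2, ← Finset.sum_mul,
            Fr_pos hDo (hgD q hq2), hXz]
        · rw [if_neg hq2, if_neg hq2, res_zero]
      · rw [if_neg hq, if_neg hq, res_zero]
  show v (∑ q, P q * gg L Ω (z q)) < 1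
  rw [hs2]
  refine v.map_add_lt ?_ hN3
  exact (hsum.trans (Cg.zero hR)).lt

end Pool.Agent.D0H2.Q4
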