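import Pool.Agent.D0H10.Q4.StmA
import Pool.Agent.W245.EB.CMz

/-!
# Project Q4, module A8: the distribution relation
-/

set_option autoImplicit false

open Filter Complex
open scoped Topology PeriodPair

namespace Pool.Agent.D0H2.Q4

open H385 (ZI RQ im1 nrm)
open Pool.Agent.H304R3.HK (tc)
open Pool.Agent.W164.RC (tc_mul)
open Pool.Agent.H304R2.EC.A1 (prim prim_ne_zero)
open Pool.Agent.TH936.CM (IsLat)
open Pool.Agent.Y699 Pool.Agent.D0H10.Q4

variable {L : PeriodPair} {Ω : ℂ}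

lemma wp_per (u w : ℂ) (hw : w ∈ L.lattice) : ℘[L] (u + w) = ℘[L] u :=
  L.weierstrassP_add_coe u ⟨w, hw⟩

lemma RQ_ext {D : ZI} {a b : RQ D} (h : D ∣ a.out - b.out) : a = b := by
  rw [← Ideal.Quotient.mk_out a, ← Ideal.Quotient.mk_out b, Ideal.Quotient.eq,
    Ideal.mem_span_singleton]
  exact h

lemma RQ_out (D : ZI) (r : ZI) : D ∣ (Ideal.Quotient.mk (Ideal.span {D}) r).out - r := by
  have h : Ideal.Quotient.mk (Ideal.span {D}) ((Ideal.Quotient.mk (Ideal.span {D}) r).out - r) = 0 := by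
    rw [map_sub, Ideal.Quotient.mk_out, sub_self]
  rwa [Ideal.Quotient.eq_zero_iff_mem, Ideal.mem_span_singleton] at h

/-- the sum over the kernel of the multiplication by `D` as a sum over the classes modulo `D` -/
lemma ker_sum (h : IsLat L RG Ω) {D : ZI} (hD : D ≠ 0) [Fintype (RQ D)] (hα : tc D ≠ 0)
    (hm : ∀ w ∈ L.lattice, tc D * w ∈ L.lattice) (F : ℂ → ℂ)
    (hF : ∀ u, ∀ w ∈ L.lattice, F (u + w) = F u) (z : ℂ) :
    ∑ x ∈ Pool.Agent.W245.EB.ker hα hm, F (z - x.out) = ∑ q : RQ D, F (z + zq Ω D q.out) := by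
  classical
  symm
  refine Finset.sum_bij (fun (q : RQ D) _ =>
    (QuotientAddGroup.mk (-(zq Ω D q.out)) : Pool.Agent.W245.EB.Qt L)) ?_ ?_ ?_ ?_
  · intro q _
    rw [Pool.Agent.W245.EB.mk_mem_ker]
    have e : tc D * -(zq Ω D q.out) = -(Ω * tc q.out) := by
      unfold zq
      field_simp
    rw [e]
    exact neg_mem ((mem_lat h).2 ⟨_, rfl⟩)
  · intro a _ b _ hab
    rw [Pool.Agent.W245.EB.mk_eq_iff] at hab
    refine RQ_ext ?_
    by_contra hcon
    apply div_notMem h hD hcon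
    have := neg_mem hab
    convert this using 1
    unfold zq
    rw [tc_sub]
    ring
  · intro q hq
    rw [Pool.Agent.W245.EB.mem_ker] at hq
    obtain ⟨r, hr⟩ := (mem_lat h).1 hq
    refine ⟨Ideal.Quotient.mk _ (-r), Finset.mem_univ _, ?_⟩
    conv_rhs => rw [← QuotientAddGroup.out_eq' q]
    rw [Pool.Agent.W245.EB.mk_eq_iff]
    have h1 := neg_mem (zq_sub h hD (RQ_out D (-r)))
    convert h1 using 1
    have h3 : q.out = zq Ω D r := by
      unfold zq
      rw [← hr]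
      field_simp
    rw [h3]
    unfold zq
    rw [tc_neg]
    ring
  · intro q _
    have h1 := Pool.Agent.W245.EB.out_sub_mem (L := L) (-(zq Ω D q.out))
    have e : z + zq Ω D q.out =
        (z - (QuotientAddGroup.mk (-(zq Ω D q.out)) : Pool.Agent.W245.EB.Qt L).out) +
        ((QuotientAddGroup.mk (-(zq Ω D q.out)) : Pool.Agent.W245.EB.Qt L).out -
          -(zq Ω D q.out)) := by ring
    rw [e, hF _ _ h1]

lemma I_mul_mem (h : IsLat L RG Ω) {z : ℂ} : I * z ∈ L.lattice ↔ z ∈ L.lattice := by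
  constructor
  · intro h1
    have h2 := lat_I h (lat_I h (lat_I h h1))
    have e : I * (I * (I * (I * z))) = z := by
      linear_combination (z * (I ^ 2 - 1)) * I_sq
    rwa [e] at h2
  · exact lat_I h

/-- the distribution relation of `℘` -/
lemma wp_dist (h : IsLat L RG Ω) {D : ZI} (hD : D ≠ 0) [Fintype (RQ D)] {z : ℂ}
    (hz : tc D * z ∉ L.lattice) :
    ∑ q : RQ D, ℘[L] (z + zq Ω D q.out) = tc D ^ 2 * ℘[L] (tc D * z) := by
  have hα := tc_ne hD
  have hm : ∀ w ∈ L.lattice, tc D * w ∈ L.lattice := fun w hw => lat_mul h D hw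
  have e0 : tc D * (I * z) = I * (tc D * z) := by ring
  have hz' : tc D * (I * z) ∉ L.lattice := by
    rw [e0, I_mul_mem h]
    exact hz
  have h1 := Pool.Agent.W245.EB.wp_mul_const hα hm z (I * z) hz hz'
  rw [ker_sum h hD hα hm _ wp_per, ker_sum h hD hα hm _ wp_per, e0, wp_I h] at h1
  have h2 : ∑ q : RQ D, ℘[L] (I * z + zq Ω D q.out) = -∑ q : RQ D, ℘[L] (z + zq Ω D q.out) := by
    rw [← sum_unit_mul (im1_isUnit D) (fun q => ℘[L] (I * z + zq Ω D q.out)),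
      ← Finset.sum_neg_distrib]
    refine Finset.sum_congr rfl fun q _ => ?_
    have h3 := zq_sub h hD (out_mul D im1 q)
    rw [zq_mul, tc_im1] at h3
    have e : I * z + zq Ω D (Ideal.Quotient.mk (Ideal.span {D}) im1 * q).out =
        I * (z + zq Ω D q.out) +
          (zq Ω D (Ideal.Quotient.mk (Ideal.span {D}) im1 * q).out - I * zq Ω D q.out) := by ring
    rw [e, wp_per _ _ h3, wp_I h]
  rw [h2] at h1
  linear_combination (-1 / 2 : ℂ) * h1

lemma OT.dbl (h : GLat L Ω) {z : ℂ} (hz : OT L z) : OT L (2 * z) := by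
  obtain ⟨D, hD, hDz⟩ := hz.ex
  refine ⟨hz.two h, D, hD, ?_⟩
  have e : tc D * (2 * z) = tc D * z + tc D * z := by ring
  rw [e]
  exact add_mem hDz hDz

lemma OT.mulI (h : GLat L Ω) {z : ℂ} (hz : OT L z) : OT L (I * z) := by
  obtain ⟨D, hD, hDz⟩ := hz.ex
  refine ⟨fun h' => hz.nm ((I_mul_mem h.lat).1 h'), D, hD, ?_⟩
  have e : tc D * (I * z) = I * (tc D * z) := by ring
  rw [e, I_mul_mem h.lat]
  exact hDz

lemma OT.addq (h : GLat L Ω) {z : ℂ} (hz : OT L z) {π : ZI} (hπ : prim π)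
    (hπz : tc π * z ∉ L.lattice) (t : ZI) : OT L (z + zq Ω π t) := by
  obtain ⟨D, hD, hDz⟩ := hz.ex
  have h0 := tc_ne (prim_ne_zero hπ)
  have e1 : tc π * zq Ω π t = Ω * tc t := by
    unfold zq
    field_simp
  have h1 : tc π * zq Ω π t ∈ L.lattice := (mem_lat h.lat).2 ⟨t, e1⟩
  refine ⟨fun h' => hπz ?_, D * π, hD.mul_left (prim_cop hπ), ?_⟩
  · have h3 := sub_mem (lat_mul h.lat π h') h1
    rwa [mul_add, add_sub_cancel_right] at h3
  · have h3 := add_mem (lat_mul h.lat π hDz) (lat_mul h.lat D h1)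
    convert h3 using 1
    rw [tc_mul]
    ring

lemma OT.mulq (h : GLat L Ω) {z : ℂ} (hz : OT L z) {π : ZI} (hπz : tc π * z ∉ L.lattice) :
    OT L (tc π * z) := by
  obtain ⟨D, hD, hDz⟩ := hz.ex
  refine ⟨hπz, D, hD, ?_⟩
  have h3 := lat_mul h.lat π hDz
  convert h3 using 1
  ring

section val

variable {Γ : Type*} [LinearOrderedCommGroupWithZero Γ] {v : Valuation ℂ Γ} (h2 : v 2 < 1)
  (h : GLat L Ω)

include h h2

/-- the abscissas of the points of odd order are congruent modulo `2` -/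
lemma wp_sub_le {a b : ℂ} (ha : OT L a) (hb : OT L b) : v (℘[L] a - ℘[L] b) ≤ v 2 := by
  by_contra hc
  push Not at hc
  obtain ⟨N1, hN1, hp1⟩ := ha.per h
  obtain ⟨N2, hN2, hp2⟩ := hb.per h
  have hit : ∀ (f : ℕ → ℂ) (N : ℕ), (∀ k, f (k + N) = f k) → ∀ m k, f (k + m * N) = f k := by
    intro f N hf m
    induction m with
    | zero => intro k; rw [zero_mul, add_zero]
    | succ m ih => intro k; rw [add_mul, one_mul, ← add_assoc, hf, ih]
  have q1 := hit (fun k => ℘[L] ((1 + I) ^ k * a)) N1 hp1 N2 0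
  have q2 := hit (fun k => ℘[L] ((1 + I) ^ k * b)) N2 hp2 N1 0
  simp only [zero_add, pow_zero, one_mul] at q1 q2
  rw [mul_comm N1 N2] at q2
  have h20 : v 2 ≠ 0 := by rw [Ne, map_eq_zero]; norm_num
  have step : ∀ k : ℕ, v 2 < v (℘[L] ((1 + I) ^ k * a) - ℘[L] ((1 + I) ^ k * b)) →
      v (℘[L] ((1 + I) ^ k * a) - ℘[L] ((1 + I) ^ k * b)) <
        v (℘[L] ((1 + I) ^ (k + 1) * a) - ℘[L] ((1 + I) ^ (k + 1) * b)) := by
    intro k hk
    obtain ⟨a1, -⟩ := h.mul_pi ((ha.pow h k).two h)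
    obtain ⟨b1, -⟩ := h.mul_pi ((hb.pow h k).two h)
    have ea : (1 + I) * ((1 + I) ^ k * a) = (1 + I) ^ (k + 1) * a := by ring
    have eb : (1 + I) * ((1 + I) ^ k * b) = (1 + I) ^ (k + 1) * b := by ring
    rw [ea] at a1
    rw [eb] at b1
    have va := wp_one h2 h (ha.pow h k)
    have vb := wp_one h2 h (hb.pow h k)
    have vb' := wp_one h2 h (hb.pow h (k + 1))
    set x := ℘[L] ((1 + I) ^ k * a)
    set y := ℘[L] ((1 + I) ^ k * b)
    set x' := ℘[L] ((1 + I) ^ (k + 1) * a)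
    set y' := ℘[L] ((1 + I) ^ (k + 1) * b)
    have e : (x - y) ^ 2 = 2 * (I * (x * (x' - y') + y' * (x - y)) - (x - y) * y) := by
      linear_combination b1 - a1
    have h3 : v (x - y) ^ 2 ≤ v 2 * max (v (x' - y')) (v (x - y)) := by
      rw [← map_pow, e, map_mul]
      refine mul_le_mul_right ?_ _
      refine (v.map_sub _ _).trans (max_le ?_ ?_)
      · rw [map_mul, v_I, one_mul]
        refine (v.map_add _ _).trans (max_le ?_ ?_)
        · rw [map_mul, va, one_mul]; exact le_max_left _ _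
        · rw [map_mul, vb', one_mul]; exact le_max_right _ _
      · rw [map_mul, vb, mul_one]; exact le_max_right _ _
    by_contra hcon
    push Not at hcon
    rw [max_eq_right hcon] at h3
    have h4 : v (x - y) ≠ 0 := fun h5 => by rw [h5] at hk; exact not_lt_zero hk
    rw [sq] at h3
    have h5 : v (x - y) ≤ v 2 := le_of_mul_le_mul_right h3 (zero_lt_iff.2 h4)
    exact absurd hk (not_lt.2 h5)
  have hmono : ∀ k : ℕ, v 2 < v (℘[L] ((1 + I) ^ k * a) - ℘[L] ((1 + I) ^ k * b)) ∧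
      (0 < k → v (℘[L] a - ℘[L] b) < v (℘[L] ((1 + I) ^ k * a) - ℘[L] ((1 + I) ^ k * b))) := by
    intro k
    induction k with
    | zero => rw [pow_zero, one_mul, one_mul]; exact ⟨hc, fun h => absurd h (lt_irrefl _)⟩
    | succ k ih =>
      have h3 := step k ih.1
      refine ⟨ih.1.trans h3, fun _ => ?_⟩
      rcases Nat.eq_zero_or_pos k with h4 | h4
      · subst h4
        rw [pow_zero, one_mul, one_mul] at h3
        exact h3
      · exact (ih.2 h4).trans h3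
  have h5 := (hmono (N2 * N1)).2 (Nat.mul_pos hN2 hN1)
  rw [q1, q2] at h5
  exact lt_irrefl _ h5

lemma Xd_le {z w : ℂ} (hz : OT L z) (hw : OT L w) : v (Xd L z w) ≤ 1 := by
  have h1 := wp_sub_le h2 h (OT.dbl h hz) (OT.dbl h hw)
  have h20 : v 2 ≠ 0 := by rw [Ne, map_eq_zero]; norm_num
  unfold Xd
  rw [map_div₀]
  exact div_le_one_of_le₀ h1 zero_le

lemma Xd_I {z w : ℂ} (hz : OT L z) (hw : OT L w) : Cg v (Xd L (I * z) w) (Xd L z w + 1) := by
  have h1 := Xd_le h2 h hz hw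
  have h3 := Xd_le h2 h (OT.mulI h hz) hw
  refine ⟨h3, (v.map_add _ _).trans (max_le h1 (by rw [map_one])), ?_⟩
  have e : Xd L (I * z) w - (Xd L z w + 1) = -(℘[L] (2 * z) + 1) := by
    unfold Xd
    have e1 : 2 * (I * z) = I * (2 * z) := by ring
    rw [e1, wp_I h.lat]
    ring
  rw [e, Valuation.map_neg, (wp_sub h2 h (OT.dbl h hz)).2]
  exact v_pi_lt h2

omit h in
lemma prim_sq {π : ZI} (hπ : prim π) : v (tc π ^ 2 - 1) < 1 ∧
    v ((tc π ^ 2 - (nrm π : ℂ)) / 2) < 1 := by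
  obtain ⟨h3, h4⟩ := hπ
  obtain ⟨m, hm⟩ : ∃ m : ℤ, π.im = 2 * m := ⟨π.im / 2, by omega⟩
  obtain ⟨n, hn⟩ : ∃ n : ℤ, π.re = 2 * n + 1 := ⟨π.re / 2, by omega⟩
  have e : tc π = (π.re : ℂ) + (π.im : ℂ) * I := rfl
  have hI : ∀ a b : ℤ, v ((a : ℂ) + b * I) ≤ 1 := by
    intro a b
    refine (v.map_add _ _).trans (max_le (v_int a) ?_)
    rw [map_mul, v_I, mul_one]
    exact v_int b
  constructor
  · have e1 : tc π ^ 2 - 1 = 2 * (((n : ℤ) : ℂ) + m * I) * (((2 * n + 2 : ℤ) : ℂ) + ((2 * m : ℤ) : ℂ) * I) := by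
      rw [e, hm, hn]
      push_cast
      ring
    rw [e1, map_mul, map_mul]
    calc v 2 * v ((n : ℂ) + m * I) * v (((2 * n + 2 : ℤ) : ℂ) + ((2 * m : ℤ) : ℂ) * I)
        ≤ v 2 * 1 * 1 := mul_le_mul' (mul_le_mul' le_rfl (hI n m)) (hI _ _)
      _ = v 2 := by rw [mul_one, mul_one]
      _ < 1 := h2
  · have e0 : ((nrm π : ℕ) : ℂ) = (π.re : ℂ) ^ 2 + (π.im : ℂ) ^ 2 := by
      have h5 : ((nrm π : ℕ) : ℤ) = π.re ^ 2 + π.im ^ 2 := by
        rw [nrm_cast]
        rw [Zsqrtd.norm_def]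
        ring
      have h6 := congrArg (fun x : ℤ => (x : ℂ)) h5
      simpa using h6
    have e1 : (tc π ^ 2 - (nrm π : ℂ)) / 2 = 2 * ((m : ℂ) * (((-(2 * m) : ℤ) : ℂ) +
        ((2 * n + 1 : ℤ) : ℂ) * I)) := by
      rw [e0, e, hm, hn]
      push_cast
      linear_combination (2 * (m : ℂ) ^ 2) * I_sq
    rw [e1, map_mul, map_mul]
    calc v 2 * (v (m : ℂ) * v (((-(2 * m) : ℤ) : ℂ) + ((2 * n + 1 : ℤ) : ℂ) * I))
        ≤ v 2 * (1 * 1) := mul_le_mul' le_rfl (mul_le_mul' (v_int m) (hI _ _))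
      _ = v 2 := by rw [mul_one, mul_one]
      _ < 1 := h2

lemma Xd_dist {w : ℂ} (hw : OT L w) {π : ZI} (hπ : PP π) {z : ℂ} (hz : OT L z)
    (hπz : tc π * z ∉ L.lattice) :
    Cg v (∑ᶠ q : RQ π, Xd L (z + zq Ω π q.out) w) (Xd L (tc π * z) w) := by
  have hfin : Finite (RQ π) := H385.he1_finite hπ.ne
  have : Fintype (RQ π) := Fintype.ofFinite _
  rw [finsum_eq_sum_of_fintype]
  have hO : ∀ q : RQ π, OT L (z + zq Ω π q.out) := fun q => OT.addq h hz hπ.prm hπz _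
  have h3 : v (∑ q : RQ π, Xd L (z + zq Ω π q.out) w) ≤ 1 :=
    v.map_sum_le fun q _ => Xd_le h2 h (hO q) hw
  have hO2 := OT.mulq h hz hπz
  have h4 := Xd_le h2 h hO2 hw
  refine ⟨h3, h4, ?_⟩
  have hu : IsUnit (Ideal.Quotient.mk (Ideal.span {π}) 2) := by
    have hcop : IsCoprime (2 : ZI) π := by
      refine IsCoprime.symm ((hπ.pr.irreducible.coprime_iff_not_dvd).2 (not_dvd_two hπ))
    obtain ⟨x, y, hxy⟩ := hcop
    refine isUnit_iff_exists_inv'.2 ⟨Ideal.Quotient.mk _ x, ?_⟩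
    rw [← map_mul, ← map_one (Ideal.Quotient.mk (Ideal.span {π})), Ideal.Quotient.eq,
      Ideal.mem_span_singleton]
    exact ⟨-y, by linear_combination hxy⟩
  have h5 : ∑ q : RQ π, ℘[L] (2 * (z + zq Ω π q.out)) = tc π ^ 2 * ℘[L] (2 * (tc π * z)) := by
    have hz2 : tc π * (2 * z) ∉ L.lattice := by
      have := (OT.dbl h hO2).nm
      have e : tc π * (2 * z) = 2 * (tc π * z) := by ring
      rwa [e]
    have h6 := wp_dist h.lat hπ.ne hz2
    have e : tc π * (2 * z) = 2 * (tc π * z) := by ring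
    rw [e] at h6
    rw [← h6, ← sum_unit_mul hu (fun q => ℘[L] (2 * z + zq Ω π q.out))]
    refine Finset.sum_congr rfl fun q _ => ?_
    have h7 := zq_sub h.lat hπ.ne (out_mul π 2 q)
    rw [zq_mul] at h7
    have e2 : tc (2 : ZI) = 2 := by
      have := tc_int 2
      simpa using this
    rw [e2] at h7
    have e3 : 2 * z + zq Ω π (Ideal.Quotient.mk (Ideal.span {π}) 2 * q).out =
        2 * (z + zq Ω π q.out) +
          (zq Ω π (Ideal.Quotient.mk (Ideal.span {π}) 2 * q).out - 2 * zq Ω π q.out) := by ring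
    rw [e3, wp_per _ _ h7]
  have h6 : ∑ q : RQ π, Xd L (z + zq Ω π q.out) w - Xd L (tc π * z) w =
      (tc π ^ 2 - 1) * Xd L (tc π * z) w + (tc π ^ 2 - (nrm π : ℂ)) / 2 * ℘[L] (2 * w) := by
    have e1 : ∑ q : RQ π, Xd L (z + zq Ω π q.out) w =
        (∑ q : RQ π, ℘[L] (2 * (z + zq Ω π q.out)) - (nrm π : ℂ) * ℘[L] (2 * w)) / 2 := by
      unfold Xd
      rw [← Finset.sum_div, Finset.sum_sub_distrib, Finset.sum_const, Finset.card_univ,
        card_fin hπ, nsmul_eq_mul]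
    rw [e1, h5]
    unfold Xd
    ring
  rw [h6]
  obtain ⟨s1, s2⟩ := prim_sq h2 (v := v) hπ.prm
  refine (v.map_add _ _).trans_lt (max_lt ?_ ?_)
  · rw [map_mul]
    calc v (tc π ^ 2 - 1) * v (Xd L (tc π * z) w) ≤ v (tc π ^ 2 - 1) * 1 :=
          mul_le_mul' le_rfl h4
      _ = v (tc π ^ 2 - 1) := mul_one _
      _ < 1 := s1
  · rw [map_mul, wp_one h2 h (OT.dbl h hw), mul_one]
    exact s2

end val

/-- **Module A8.** -/
theorem dst : S_DST := by
  intro L Ω s hN Γ _ v h2 w hw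
  exact ⟨fun z hz => Xd_I h2 hN.gl hz hw, fun π z hπ hz hπz => Xd_dist h2 hN.gl hw hπ hz hπz⟩

end Pool.Agent.D0H2.Q4
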