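import Pool.Agent.D0H2.Q4.Dst

/-!
# Project Q4, module A10: the sums of the values are not units
-/

set_option autoImplicit false

open Filter Complex
open scoped Topology PeriodPair

namespace Pool.Agent.D0H2.Q4

open H385 (ZI RQ im1 nrm)
open Pool.Agent.H304R3.HK (tc)
open Pool.Agent.W164.RC (tc_mul unit_cases)
open Pool.Agent.H304R2.EC.A1 (prim prim_ne_zero prim_norm_odd)
open Pool.Agent.TH936.CM (IsLat)
open Pool.Agent.Y699 Pool.Agent.D0H10.Q4

section res

variable {Γ : Type} [LinearOrderedCommGroupWithZero Γ] (v : Valuation ℂ Γ)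

/-- the maximal ideal -/
def mI : Ideal v.integer where
  carrier := {x | v (x : ℂ) < 1}
  add_mem' := fun {a b} ha hb => by
    show v (((a + b : v.integer)) : ℂ) < 1
    push_cast
    exact v.map_add_lt ha hb
  zero_mem' := by
    show v (((0 : v.integer)) : ℂ) < 1
    push_cast
    rw [map_zero]
    exact zero_lt_one
  smul_mem' := fun c x hx => by
    show v (((c * x : v.integer)) : ℂ) < 1
    push_cast
    rw [map_mul]
    have h1 : v (c : ℂ) ≤ 1 := c.2
    exact lt_of_le_of_lt (mul_le_of_le_one_left' h1) hx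

/-- the residue ring -/
abbrev AA' : Type := v.integer ⧸ mI v

open Classical in
/-- the residue class -/
noncomputable def res (x : ℂ) : AA' v := if h : v x ≤ 1 then Ideal.Quotient.mk (mI v) ⟨x, h⟩ else 0

variable {v}

lemma res_of {x : ℂ} (h : v x ≤ 1) : res v x = Ideal.Quotient.mk (mI v) ⟨x, h⟩ := by
  unfold res
  rw [dif_pos h]

lemma res_cg {x y : ℂ} (h : Cg v x y) : res v x = res v y := by
  rw [res_of h.l, res_of h.r, Ideal.Quotient.eq]
  exact h.s

lemma cg_res {x y : ℂ} (hx : v x ≤ 1) (hy : v y ≤ 1) (h : res v x = res v y) : Cg v x y := by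
  rw [res_of hx, res_of hy, Ideal.Quotient.eq] at h
  exact ⟨hx, hy, h⟩

lemma res_add {x y : ℂ} (hx : v x ≤ 1) (hy : v y ≤ 1) : res v (x + y) = res v x + res v y := by
  rw [res_of hx, res_of hy, res_of (v.map_add_le hx hy), ← map_add]
  rfl

lemma res_mul {x y : ℂ} (hx : v x ≤ 1) (hy : v y ≤ 1) : res v (x * y) = res v x * res v y := by
  have h : v (x * y) ≤ 1 := by
    rw [map_mul]
    exact mul_le_one' hx hy
  rw [res_of hx, res_of hy, res_of h, ← map_mul]
  rfl

lemma res_zero : res v 0 = 0 := by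
  rw [res_of (by rw [map_zero]; exact zero_le_one)]
  exact map_zero _

lemma res_one : res v 1 = 1 := by
  rw [res_of (by rw [map_one])]
  exact map_one _

lemma res_sum {κ : Type*} (s : Finset κ) {f : κ → ℂ} (h : ∀ i ∈ s, v (f i) ≤ 1) :
    res v (∑ i ∈ s, f i) = ∑ i ∈ s, res v (f i) := by
  classical
  induction s using Finset.induction_on with
  | empty => rw [Finset.sum_empty, Finset.sum_empty, res_zero]
  | insert a s ha ih =>
    rw [Finset.sum_insert ha, Finset.sum_insert ha, res_add (h a (Finset.mem_insert_self _ _))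
      (v.map_sum_le fun i hi => h i (Finset.mem_insert_of_mem hi)),
      ih fun i hi => h i (Finset.mem_insert_of_mem hi)]

lemma res_uu (a : ZMod 2) : res v (uu a) = uA a := by
  unfold uu uA
  split_ifs
  · exact res_one
  · exact res_zero

lemma res_two (h2 : v 2 < 1) : (2 : AA' v) = 0 := by
  have h : res v 2 = 0 := by
    rw [res_cg (Cg.zero h2), res_zero]
  rw [← h]
  have e : (2 : ℂ) = 1 + 1 := by norm_num
  rw [e, res_add (by rw [map_one]) (by rw [map_one]), res_one]
  norm_num

end res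

/-! ### the factors -/

section pf

variable {Γ : Type} [LinearOrderedCommGroupWithZero Γ] {v : Valuation ℂ Γ} (h2 : v 2 < 1)

lemma tc_negim : tc (-im1) = -I := by rw [tc_neg, tc_im1]

lemma im1_sq' : im1 ^ 2 = -1 := by decide

lemma im1_cu : im1 ^ 3 = -im1 := by decide

lemma pf_zero {π : ZI} {k : ℕ} {a : ZI} (ha : π ∣ a) : pf π k a = 0 := by
  unfold pf
  rw [fe_zero _ ha, fe_zero _ ha, add_zero, tc_zero, zero_div]

lemma pf_per {π : ZI} (hπ : PP π) {k : ℕ} {a b : ZI} (hab : π ∣ a - b) : pf π k a = pf π k b := by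
  unfold pf
  rw [fe_per hπ 0 hab, fe_per hπ k hab]

include h2 in
lemma pf_val {π : ZI} (hπ : PP π) {k : ℕ} (hk : k % 2 = 1) {a : ZI} (ha : ¬ π ∣ a) :
    (∃ b : ZI, pf π k a = tc b) ∧ Cg v (pf π k a) (uu (if qr π a = -1 then 1 else 0)) := by
  have hl := one_I_ne
  have hn := fe_norm hπ k ha
  have h0 : fe π 0 a = 1 := by
    unfold fe
    rw [if_neg ha, pow_zero]
  have hsq : (fe π k a) ^ 2 = (qr π a : ZI) := by
    have h1 : fe π k a = q4 π a ^ k := by unfold fe; rw [if_neg ha]
    rw [h1, ← pow_mul, mul_comm, pow_mul, q4_sq hπ]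
    obtain ⟨m, hm⟩ : ∃ m, k = 2 * m + 1 := ⟨k / 2, by omega⟩
    rcases qr_cases (π := π) ha with h | h
    · rw [h]; simp
    · rw [h, hm, pow_succ, pow_mul]; simp
  have hpf : pf π k a = (1 + tc (fe π k a)) / (1 + I) := by
    unfold pf
    rw [h0, tc_add, tc_one]
  have hlt := v_pi_lt h2
  rw [hpf]
  rcases unit_cases hn with h | h | h | h
  · rw [h] at hsq
    have hq : ¬ qr π a = -1 := by
      intro h'
      rw [h'] at hsq
      revert hsq
      decide
    rw [h, tc_one, if_neg hq, uu_zero]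
    have e : (1 + 1 : ℂ) / (1 + I) = 1 - I := by
      rw [div_eq_iff hl]
      linear_combination I_sq
    rw [e]
    refine ⟨⟨⟨1, -1⟩, by simp [tc]; ring⟩, Cg.zero ?_⟩
    have e2 : (1 : ℂ) - I = -I * (1 + I) := by linear_combination I_sq
    rw [e2, map_mul, Valuation.map_neg, v_I, one_mul]
    exact hlt
  · rw [h] at hsq
    have hq : qr π a = -1 := by
      rcases qr_cases (π := π) ha with h' | h'
      · rw [h'] at hsq
        exfalso
        revert hsq
        decide
      · exact h'
    rw [h, tc_im1, if_pos hq, uu_one]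
    have e : (1 + I : ℂ) / (1 + I) = 1 := div_self hl
    rw [e]
    exact ⟨⟨1, by rw [tc_one]⟩, Cg.refl (by rw [map_one])⟩
  · rw [h] at hsq
    have hq : ¬ qr π a = -1 := by
      intro h'
      rw [h'] at hsq
      revert hsq
      decide
    rw [h, im1_sq', tc_neg, tc_one, if_neg hq, uu_zero]
    have e : (1 + -1 : ℂ) / (1 + I) = 0 := by norm_num
    rw [e]
    exact ⟨⟨0, by rw [tc_zero]⟩, Cg.refl (by rw [map_zero]; exact zero_le_one)⟩
  · rw [h] at hsq
    have hq : qr π a = -1 := by
      rcases qr_cases (π := π) ha with h' | h'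
      · rw [h'] at hsq
        exfalso
        revert hsq
        decide
      · exact h'
    rw [h, im1_cu, tc_negim, if_pos hq, uu_one]
    have e : (1 + -I : ℂ) / (1 + I) = -I := by
      rw [div_eq_iff hl]
      linear_combination I_sq
    rw [e]
    refine ⟨⟨-im1, by rw [tc_negim]⟩, ?_, ?_, ?_⟩
    · rw [Valuation.map_neg, v_I]
    · rw [map_one]
    · have e2 : -I - 1 = -(1 + I) := by ring
      rw [e2, Valuation.map_neg]
      exact hlt

lemma pf_neg {π : ZI} (hπ : PP π) {k : ℕ} (hk : k % 2 = 1) {a : ZI} (ha : ¬ π ∣ a) :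
    (π.norm % 8 ≠ 5 ∧ pf π k (-a) = pf π k a) ∨
    (π.norm % 8 = 5 ∧ pf π k (-a) = -pf π k a - I * (1 + I)) := by
  have hl := one_I_ne
  have hna : ¬ π ∣ -a := fun h => ha (by simpa using h)
  have h0 : fe π 0 a = 1 := by
    unfold fe
    rw [if_neg ha, pow_zero]
  have h0' : fe π 0 (-a) = 1 := by
    unfold fe
    rw [if_neg hna, pow_zero]
  have h1 : fe π k (-a) = (-1) ^ (k * wq π) * fe π k a := by
    have e : -a = (-1) * a := by ring
    rw [e, fe_mul hπ, fe_unit hπ k (by decide)]
  have hm := hπ.norm_mod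
  have hc := nrm_cast π
  unfold pf
  rw [h0, h0', h1, tc_add, tc_add, tc_one, tc_mul]
  by_cases h8 : π.norm % 8 = 5
  · right
    refine ⟨h8, ?_⟩
    have hw : (k * wq π) % 2 = 1 := by
      have : wq π % 2 = 1 := by
        unfold wq
        omega
      rw [Nat.mul_mod, hk, this]
    have e : ((-1 : ZI)) ^ (k * wq π) = -1 := by
      obtain ⟨m, hm⟩ : ∃ m, k * wq π = 2 * m + 1 := ⟨(k * wq π) / 2, by omega⟩
      rw [hm, pow_succ, pow_mul]
      simp
    rw [e, tc_neg, tc_one]
    field_simp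
    linear_combination (2 + I) * I_sq
  · left
    refine ⟨h8, ?_⟩
    have hw : (k * wq π) % 2 = 0 := by
      have : wq π % 2 = 0 := by
        unfold wq
        omega
      rw [Nat.mul_mod, this]
      simp
    have e : ((-1 : ZI)) ^ (k * wq π) = 1 := by
      obtain ⟨m, hm⟩ : ∃ m, k * wq π = 2 * m := ⟨(k * wq π) / 2, by omega⟩
      rw [hm, pow_mul]
      simp
    rw [e, tc_one, one_mul]

include h2 in
/-- the product over all factors and over all factors at the opposite point -/
lemma prod_neg {κ : Type*} [DecidableEq κ] (V : Finset κ) (p p' : κ → ℂ) (t : κ → ZMod 2)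
    (hp : ∀ j ∈ V, v (p j) ≤ 1)
    (hc : ∀ j ∈ V, (t j = 0 ∧ p' j = p j) ∨ (t j = 1 ∧ p' j = -p j - I * (1 + I))) :
    ∃ Q : ℂ, ∏ j ∈ V, p j + ∏ j ∈ V, p' j = (1 + I) * Q ∧
      Cg v Q (∑ j ∈ V, uu (t j) * ∏ k ∈ V.erase j, p k) := by
  have hlt := v_pi_lt h2
  induction V using Finset.induction_on with
  | empty =>
    refine ⟨1 - I, ?_, ?_⟩
    · simp only [Finset.prod_empty]
      linear_combination I_sq
    · simp only [Finset.sum_empty]
      apply Cg.zero
      have e2 : (1 : ℂ) - I = -I * (1 + I) := by linear_combination I_sq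
      rw [e2, map_mul, Valuation.map_neg, v_I, one_mul]
      exact hlt
  | insert a V ha ih =>
    obtain ⟨Q, hQ, hQc⟩ := ih (fun j hj => hp j (Finset.mem_insert_of_mem hj))
      (fun j hj => hc j (Finset.mem_insert_of_mem hj))
    have hpa := hp a (Finset.mem_insert_self _ _)
    have hsum : ∑ j ∈ insert a V, uu (t j) * ∏ k ∈ (insert a V).erase j, p k =
        uu (t a) * ∏ k ∈ V, p k + p a * ∑ j ∈ V, uu (t j) * ∏ k ∈ V.erase j, p k := by
      rw [Finset.sum_insert ha, Finset.erase_insert ha, Finset.mul_sum]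
      congr 1
      refine Finset.sum_congr rfl fun j hj => ?_
      have hja : a ≠ j := fun h => ha (h ▸ hj)
      rw [Finset.erase_insert_of_ne hja,
        Finset.prod_insert (fun h => ha (Finset.mem_of_mem_erase h))]
      ring
    have hpr : v (∏ k ∈ V, p k) ≤ 1 := by
      rw [map_prod]
      exact Finset.prod_le_one' fun j hj => hp j (Finset.mem_insert_of_mem hj)
    have hpr' : v (∏ k ∈ V, p' k) ≤ 1 := by
      rw [map_prod]
      refine Finset.prod_le_one' fun j hj => ?_
      have h1 := hp j (Finset.mem_insert_of_mem hj)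
      rcases hc j (Finset.mem_insert_of_mem hj) with ⟨-, h⟩ | ⟨-, h⟩
      · rw [h]; exact h1
      · rw [h]
        refine (v.map_sub _ _).trans (max_le ?_ ?_)
        · rw [Valuation.map_neg]; exact h1
        · rw [map_mul, v_I, one_mul]; exact hlt.le
    rw [Finset.prod_insert ha, Finset.prod_insert ha, hsum]
    rcases hc a (Finset.mem_insert_self _ _) with ⟨h0, h⟩ | ⟨h0, h⟩
    · refine ⟨p a * Q, ?_, ?_⟩
      · rw [h]
        linear_combination p a * hQ
      · rw [h0, uu_zero, zero_mul, zero_add]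
        exact (Cg.refl hpa).mul hQc
    · refine ⟨-(1 - I) * (p a * ∏ k ∈ V, p' k) - I * ∏ k ∈ V, p' k + p a * Q, ?_, ?_⟩
      · rw [h]
        linear_combination p a * hQ - (p a * ∏ k ∈ V, p' k) * I_sq
      · rw [h0, uu_one, one_mul]
        refine Cg.add ?_ ((Cg.refl hpa).mul hQc)
        have e1 : v (1 - I) < 1 := by
          have e2 : (1 : ℂ) - I = -I * (1 + I) := by linear_combination I_sq
          rw [e2, map_mul, Valuation.map_neg, v_I, one_mul]
          exact hlt
        have e3 : Cg v (-(1 - I) * (p a * ∏ k ∈ V, p' k)) 0 := by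
          apply Cg.zero
          rw [map_mul, Valuation.map_neg, map_mul]
          exact lt_of_le_of_lt (mul_le_of_le_one_right' (mul_le_one' hpa hpr')) e1
        have e4 : Cg v (-(I * ∏ k ∈ V, p' k)) (∏ k ∈ V, p k) := by
          refine ⟨?_, hpr, ?_⟩
          · rw [Valuation.map_neg, map_mul, v_I, one_mul]; exact hpr'
          · have e5 : -(I * ∏ k ∈ V, p' k) - ∏ k ∈ V, p k = -((1 + I) * Q) + (1 - I) * ∏ k ∈ V, p' k := by
              linear_combination -hQ
            rw [e5]
            refine v.map_add_lt ?_ ?_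
            · rw [Valuation.map_neg, map_mul]
              exact lt_of_le_of_lt (mul_le_of_le_one_right' hQc.l) hlt
            · rw [map_mul]
              exact lt_of_le_of_lt (mul_le_of_le_one_right' hpr') e1
        have e6 := e3.add e4
        rw [zero_add] at e6
        rwa [← sub_eq_add_neg] at e6

omit [LinearOrderedCommGroupWithZero Γ] in
lemma zi_cases (M : ZI) : (∃ c : ZI, M = pi1 * c) ∨ ∃ c : ZI, M = 1 + pi1 * c := by
  rcases Int.even_or_odd (M.re + M.im) with h | h
  · left
    obtain ⟨m, hm⟩ := h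
    refine ⟨⟨m, M.im - m⟩, ?_⟩
    rw [Zsqrtd.ext_iff]
    simp only [pi1, Zsqrtd.re_mul, Zsqrtd.im_mul]
    constructor <;> omega
  · right
    obtain ⟨m, hm⟩ := h
    refine ⟨⟨m, M.im - m⟩, ?_⟩
    rw [Zsqrtd.ext_iff]
    simp only [pi1, Zsqrtd.re_add, Zsqrtd.im_add, Zsqrtd.re_mul, Zsqrtd.im_mul, Zsqrtd.re_one,
      Zsqrtd.im_one]
    constructor <;> omega

lemma v_tc (M : ZI) : v (tc M) ≤ 1 := by
  have e : tc M = (M.re : ℂ) + (M.im : ℂ) * I := rfl
  rw [e]
  refine (v.map_add _ _).trans (max_le (v_int _) ?_)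
  rw [map_mul, v_I, mul_one]
  exact v_int _

include h2 in
lemma even_of_lt {M : ZI} (h : v (tc M) < 1) : ∃ c : ZI, M = pi1 * c := by
  rcases zi_cases M with h1 | ⟨c, hc⟩
  · exact h1
  · exfalso
    rw [hc, tc_add, tc_one, tc_mul, tc_pi1] at h
    have h3 : v ((1 + I) * tc c) < 1 := by
      rw [map_mul]
      exact lt_of_le_of_lt (mul_le_of_le_one_right' (v_tc c)) (v_pi_lt h2)
    have h4 : v ((1 + (1 + I) * tc c) - (1 + I) * tc c) < 1 :=
      lt_of_le_of_lt (v.map_sub _ _) (max_lt h h3)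
    rw [add_sub_cancel_right, map_one] at h4
    exact lt_irrefl _ h4

end pf

end Pool.Agent.D0H2.Q4
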