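import Pool.Agent.D0H2.Q4.Rhs

/-!
# Project Q4, module A10: the sums of the values are not units (the theorem)
-/

set_option autoImplicit false

open Filter Complex
open scoped Topology PeriodPair

namespace Pool.Agent.D0H2.Q4

open H385 (ZI RQ im1 nrm)
open Pool.Agent.H304R3.HK (tc)
open Pool.Agent.W164.RC (tc_mul unit_cases)
open Pool.Agent.H304R2.EC.A1 (prim prim_ne_zero prim_norm_odd)
open Pool.Agent.TH936.CM (IsLat)
open Pool.Agent.Y699 Pool.Agent.D0H10.Q4

variable {L : PeriodPair} {Ω : ℂ}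

lemma norm_odd_ne {D : ZI} (hD : D.norm % 2 = 1) : D ≠ 0 := by
  rintro rfl
  rw [Zsqrtd.norm_zero] at hD
  norm_num at hD

lemma cop_of_odd {D : ZI} (hD : D.norm % 2 = 1) : IsCoprime D pi1 := by
  have h1 : ((D.norm : ℤ) : ZI) = D * star D := Zsqrtd.norm_eq_mul_conj D
  obtain ⟨k, hk⟩ : ∃ k, D.norm = 2 * k + 1 := ⟨D.norm / 2, by omega⟩
  rw [hk] at h1
  have e : (2 : ZI) = pi1 * star pi1 := by decide
  refine ⟨star D, -((k : ZI) * star pi1), ?_⟩
  push_cast at h1
  linear_combination -h1 + (k : ZI) * e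

lemma OTq (h : GLat L Ω) {D t : ZI} (hD : D.norm % 2 = 1) (ht : ¬ D ∣ t) : OT L (zq Ω D t) := by
  refine ⟨zq_notMem h (norm_odd_ne hD) ht, D, cop_of_odd hD, ?_⟩
  refine (mem_lat h.lat).2 ⟨t, ?_⟩
  unfold zq
  have := tc_ne (norm_odd_ne hD)
  field_simp

lemma Xd_per (z w l : ℂ) (hl : l ∈ L.lattice) : Xd L (z + l) w = Xd L z w := by
  unfold Xd
  have e : 2 * (z + l) = 2 * z + (l + l) := by ring
  rw [e, wp_per _ _ (add_mem hl hl)]

lemma Xd_neg (z w : ℂ) : Xd L (-z) w = Xd L z w := by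
  unfold Xd
  rw [mul_neg, L.weierstrassP_neg]

lemma zq_add (D a b : ZI) : zq Ω D (a + b) = zq Ω D a + zq Ω D b := by
  unfold zq
  rw [tc_add]
  ring

lemma zq_self {D : ZI} (hD : D ≠ 0) (s : ZI) : zq Ω D (D * s) = Ω * tc s := by
  unfold zq
  rw [tc_mul]
  have := tc_ne hD
  field_simp

lemma zq_scal {c D : ZI} (hc : c ≠ 0) (t : ZI) : zq Ω (c * D) (c * t) = zq Ω D t := by
  unfold zq
  rw [tc_mul, tc_mul]
  have := tc_ne hc
  by_cases hD : tc D = 0
  · rw [hD, mul_zero, div_zero, div_zero]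
  · field_simp

section Fr

variable {Γ : Type} [LinearOrderedCommGroupWithZero Γ] (v : Valuation ℂ Γ)

open Classical in
/-- the residues of the values `Xd (t / D)` -/
noncomputable def Fr (L : PeriodPair) (Ω w : ℂ) (D t : ZI) : AA' v :=
  if D.norm % 2 = 1 ∧ ¬ D ∣ t then res v (Xd L (zq Ω D t) w) else 0

variable {v}

lemma Fr_pos {w : ℂ} {D t : ZI} (h : D.norm % 2 = 1) (h' : ¬ D ∣ t) :
    Fr v L Ω w D t = res v (Xd L (zq Ω D t) w) := by
  unfold Fr
  rw [if_pos ⟨h, h'⟩]

lemma Fr_neg {w : ℂ} {D t : ZI} (h : ¬ (D.norm % 2 = 1 ∧ ¬ D ∣ t)) :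
    Fr v L Ω w D t = 0 := by
  unfold Fr
  rw [if_neg h]

lemma Fr_dst (hD : S_DST) {s : ℂ} (hN : NL L Ω s) (h2 : v 2 < 1) {w : ℂ} (hw : OT L w) :
    Dst (Fr v L Ω w) := by
  have hX : ∀ z, OT L z → v (Xd L z w) ≤ 1 := fun z hz => Xd_le h2 hN.gl hz hw
  obtain ⟨hI, hdist⟩ := hD L Ω s hN Γ v h2 w hw
  refine ⟨?_, ?_, ?_, ?_, ?_⟩
  · intro D t s
    have e : D ∣ t + D * s ↔ D ∣ t := dvd_add_left (dvd_mul_right D s)
    by_cases h : D.norm % 2 = 1 ∧ ¬ D ∣ t
    · rw [Fr_pos h.1 h.2, Fr_pos h.1 (by rw [e]; exact h.2), zq_add, zq_self (norm_odd_ne h.1),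
        Xd_per _ _ _ ((mem_lat hN.gl.lat).2 ⟨s, rfl⟩)]
    · rw [Fr_neg h, Fr_neg (by rw [e]; exact h)]
  · intro D t
    by_cases h : D.norm % 2 = 1 ∧ ¬ D ∣ t
    · rw [Fr_pos h.1 h.2, Fr_pos h.1 (by rw [dvd_neg]; exact h.2), zq_neg, Xd_neg]
    · rw [Fr_neg h, Fr_neg (by rw [dvd_neg]; exact h)]
  · intro D t h h'
    have h3 : ¬ D ∣ im1 * t := by
      intro h4
      apply h'
      have e : t = -(im1 * (im1 * t)) := by
        have e2 : im1 * im1 = -1 := by decide
        rw [← mul_assoc, e2]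
        ring
      rw [e]
      exact (h4.mul_left im1).neg_right
    have hz := OTq hN.gl h h'
    rw [Fr_pos h h', Fr_pos h h3, zq_mul, tc_im1, res_cg (hI _ hz), res_add (hX _ hz)
      (by rw [map_one]), res_one]
  · intro c D t hc
    have hc0 := norm_odd_ne hc
    have e1 : (c * D).norm % 2 = 1 ↔ D.norm % 2 = 1 := by
      rw [Zsqrtd.norm_mul, Int.mul_emod, hc, one_mul, Int.emod_emod_of_dvd _ dvd_rfl]
    have e2 : c * D ∣ c * t ↔ D ∣ t := mul_dvd_mul_iff_left hc0
    by_cases h : D.norm % 2 = 1 ∧ ¬ D ∣ t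
    · rw [Fr_pos h.1 h.2, Fr_pos (e1.2 h.1) (by rw [e2]; exact h.2), zq_scal hc0]
    · rw [Fr_neg h, Fr_neg (by rw [e1, e2]; exact h)]
  · intro π D t hπ hD hcop ht
    have hπ0 := hπ.ne
    have hD0 := prim_ne_zero hD
    have hDo : D.norm % 2 = 1 := prim_norm_odd hD
    have hπo : π.norm % 2 = 1 := prim_norm_odd hπ.prm
    have hz := OTq hN.gl hDo ht
    have h3 : ¬ D ∣ π * t := fun h4 => ht (hcop.symm.dvd_of_dvd_mul_left h4)
    have h4 : tc π * zq Ω D t ∉ L.lattice := by
      rw [← zq_mul]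
      exact zq_notMem hN.gl hD0 h3
    have h5 := hdist π _ hπ hz h4
    have hfin : Finite (RQ π) := H385.he1_finite hπ.ne
    have : Fintype (RQ π) := Fintype.ofFinite _
    have hpo : (π * D).norm % 2 = 1 := by
      rw [Zsqrtd.norm_mul, Int.mul_emod, hDo, hπo]
      norm_num
    have h6 : ∀ q : RQ π, Fr v L Ω w (π * D) (π * t + D * q.out) =
        res v (Xd L (zq Ω D t + zq Ω π q.out) w) := by
      intro q
      have h7 : ¬ π * D ∣ π * t + D * q.out := by
        intro h8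
        have h9 : D ∣ π * t + D * q.out := (Dvd.intro_left π rfl).trans h8
        exact h3 ((dvd_add_left (dvd_mul_right D _)).1 h9)
      rw [Fr_pos hpo h7]
      congr 2
      unfold zq
      rw [tc_add, tc_mul, tc_mul, tc_mul]
      have a1 := tc_ne hπ0
      have a2 := tc_ne hD0
      field_simp
    rw [Fr_pos hDo h3, zq_mul, ← res_cg h5, finsum_eq_sum_of_fintype, finsum_eq_sum_of_fintype,
      res_sum]
    · exact Finset.sum_congr rfl fun q _ => h6 q
    · intro q _
      exact hX _ (OT.addq hN.gl hz hπ.prm h4 _)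

lemma Dst.succ {A : Type} [CommRing A] (h2 : (2 : A) = 0) {F : ZI → ZI → A} (h : Dst F) :
    Dst (fun D t => F D t + 1) := by
  refine ⟨?_, ?_, ?_, ?_, ?_⟩
  · intro D t s
    simp only [h.per]
  · intro D t
    simp only [h.ev]
  · intro D t h1 h3
    simp only [h.im D t h1 h3]
  · intro c D t hc
    simp only [h.scal c D t hc]
  · intro π D t hπ hD hcop ht
    have h3 := h.dist π D t hπ hD hcop ht
    have hfin : Finite (RQ π) := H385.he1_finite hπ.ne
    have : Fintype (RQ π) := Fintype.ofFinite _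
    rw [finsum_eq_sum_of_fintype] at h3 ⊢
    rw [Finset.sum_add_distrib, h3, Finset.sum_const, Finset.card_univ, card_fin hπ, nsmul_eq_mul,
      mul_one]
    congr 1
    have h4 : π.norm % 2 = 1 := prim_norm_odd hπ.prm
    have h5 := nrm_cast π
    obtain ⟨k, hk⟩ : ∃ k : ℕ, nrm π = 2 * k + 1 := ⟨nrm π / 2, by omega⟩
    rw [hk]
    push_cast
    rw [h2, zero_mul, zero_add]

end Fr

/-! ### half systems -/

lemma two_unit {D : ZI} (hD : D.norm % 2 = 1) {q : RQ D} (h : q = -q) : q = 0 := by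
  have h1 : D ∣ q.out - -q.out := by
    have h3 : D ∣ q.out - (-q).out := by
      rw [← h, sub_self]
      exact dvd_zero D
    have h4 := dvd_add h3 (out_neg D q)
    rwa [sub_add_sub_cancel] at h4
  have h2 : IsCoprime D (2 : ZI) := by
    have e : (2 : ZI) = pi1 * star pi1 := by decide
    have e3 : star pi1 = -im1 * pi1 := by decide
    rw [e, e3]
    refine (cop_of_odd hD).mul_right (IsCoprime.mul_right ?_ (cop_of_odd hD))
    exact ⟨0, im1, by rw [zero_mul, zero_add]; decide⟩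
  have h3 : D ∣ 2 * q.out := by
    have e : (2 : ZI) * q.out = q.out - -q.out := by ring
    rw [e]
    exact h1
  have h4 := h2.dvd_of_dvd_mul_left h3
  rw [← Ideal.Quotient.mk_out q, Ideal.Quotient.eq_zero_iff_mem, Ideal.mem_span_singleton]
  exact h4

lemma exists_half {D : ZI} (hD : D.norm % 2 = 1) : ∃ H : Set (RQ D), Half D H := by
  classical
  have hfin : Finite (RQ D) := H385.he1_finite (norm_odd_ne hD)
  have : Fintype (RQ D) := Fintype.ofFinite _
  set o := Fintype.equivFin (RQ D)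
  refine ⟨{q | o q < o (-q)}, ?_, ?_⟩
  · show ¬ (o 0 < o (-0))
    rw [neg_zero]
    exact lt_irrefl _
  · intro q hq
    show o q < o (-q) ↔ ¬ (o (-q) < o (- -q))
    rw [neg_neg, not_lt]
    refine ⟨fun h => h.le, fun h => lt_of_le_of_ne h fun h3 => hq ?_⟩
    exact two_unit hD (o.injective h3)

open Classical in
lemma sum_half {D : ZI} {H : Set (RQ D)} (hH : Half D H) [Fintype (RQ D)] {A : Type*}
    [AddCommGroup A] (f : RQ D → A) (h0 : f 0 = 0) :
    ∑ q, f q = ∑ q, if q ∈ H then f q + f (-q) else 0 := by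
  have h1 : ∀ q, f q = (if q ∈ H then f q else 0) + (if -q ∈ H then f q else 0) := by
    intro q
    by_cases hq : q = 0
    · rw [hq, neg_zero, if_neg hH.1, h0, add_zero]
    · have h3 := hH.2 q hq
      by_cases h4 : q ∈ H
      · rw [if_pos h4, if_neg (h3.1 h4), add_zero]
      · have h5 : -q ∈ H := by
          by_contra h6
          exact h4 (h3.2 h6)
        rw [if_neg h4, if_pos h5, zero_add]
  calc ∑ q, f q = ∑ q, ((if q ∈ H then f q else 0) + (if -q ∈ H then f q else 0)) :=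
        Finset.sum_congr rfl fun q _ => h1 q
    _ = ∑ q, (if q ∈ H then f q else 0) + ∑ q, (if -q ∈ H then f q else 0) :=
        Finset.sum_add_distrib
    _ = ∑ q, (if q ∈ H then f q else 0) + ∑ q, (if q ∈ H then f (-q) else 0) := by
        congr 1
        rw [← Equiv.sum_comp (Equiv.neg (RQ D))]
        refine Finset.sum_congr rfl fun q _ => ?_
        simp only [Equiv.neg_apply, neg_neg]
    _ = _ := by
        rw [← Finset.sum_add_distrib]
        refine Finset.sum_congr rfl fun q _ => ?_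
        split_ifs
        · rfl
        · rw [add_zero]

open Classical in
lemma finsum_half {D : ZI} {H : Set (RQ D)} [Fintype (RQ D)] {A : Type*}
    [AddCommMonoid A] (f : RQ D → A) :
    ∑ᶠ q ∈ H, f q = ∑ q, if q ∈ H then f q else 0 := by
  rw [finsum_eq_sum_of_fintype]
  exact Finset.sum_congr rfl fun q _ => finsum_eq_if

/-! ### `uA` -/

section uA

variable {A : Type} [CommRing A]

lemma uA_mul (a b : ZMod 2) : (uA (a * b) : A) = uA a * uA b := by
  have h0 : ∀ a : ZMod 2, a = 0 ∨ a = 1 := by decide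
  rcases h0 a with rfl | rfl <;> rcases h0 b with rfl | rfl <;> simp [uA]

lemma uA_prod {κ : Type*} (s : Finset κ) (f : κ → ZMod 2) :
    (uA (∏ i ∈ s, f i) : A) = ∏ i ∈ s, uA (f i) := by
  classical
  induction s using Finset.induction_on with
  | empty => simp [uA]
  | insert a s ha ih =>
    rw [Finset.prod_insert ha, Finset.prod_insert ha, uA_mul, ih]

end uA

end Pool.Agent.D0H2.Q4
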